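import Pool.Agent.H984R4.HN.Ret
import Pool.Agent.H984R4.HN.Couple
import Pool.Agent.U198.FK.Slot

/-!
# The half-plane exploration path: examined edges and tests
-/

set_option autoImplicit false
set_option linter.unusedVariables false

namespace Pool.Agent.U198.HP

open H974 Finset H342P H984P H984N H984H
open Pool.Agent.U198.FK (Fl mem_Fl Ev ev ev_even ev_end ev_of ev_iff star star_card mem_star)
open scoped Classical

noncomputable section

/-- the edge examined by the path -/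
def be (σ : St) : Edg := match σ.2 with
  | .ne => (σ.1.1, σ.1.2, false)
  | .nw => (σ.1.1 - 1, σ.1.2, true)
  | .sw => (σ.1.1, σ.1.2 - 1, false)
  | .se => (σ.1.1, σ.1.2, true)

/-- the next state if this edge is open -/
def bm (σ : St) : St := match σ.2 with
  | .ne => ((σ.1.1, σ.1.2 + 1), .se)
  | .nw => ((σ.1.1 - 1, σ.1.2), .ne)
  | .sw => ((σ.1.1, σ.1.2 - 1), .nw)
  | .se => ((σ.1.1 + 1, σ.1.2), .sw)

/-- the next state if this edge is closed -/
def bt (σ : St) : St := match σ.2 with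
  | .ne => (σ.1, .nw)
  | .nw => (σ.1, .sw)
  | .sw => (σ.1, .se)
  | .se => (σ.1, .ne)

@[simp] theorem be_ne (x y : ℤ) : be ((x, y), .ne) = (x, y, false) := rfl
@[simp] theorem be_nw (x y : ℤ) : be ((x, y), .nw) = (x - 1, y, true) := rfl
@[simp] theorem be_sw (x y : ℤ) : be ((x, y), .sw) = (x, y - 1, false) := rfl
@[simp] theorem be_se (x y : ℤ) : be ((x, y), .se) = (x, y, true) := rfl
@[simp] theorem bm_ne (x y : ℤ) : bm ((x, y), .ne) = ((x, y + 1), .se) := rfl
@[simp] theorem bm_nw (x y : ℤ) : bm ((x, y), .nw) = ((x - 1, y), .ne) := rfl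
@[simp] theorem bm_sw (x y : ℤ) : bm ((x, y), .sw) = ((x, y - 1), .nw) := rfl
@[simp] theorem bm_se (x y : ℤ) : bm ((x, y), .se) = ((x + 1, y), .sw) := rfl
@[simp] theorem bt_ne (v : Vtx) : bt (v, .ne) = (v, .nw) := rfl
@[simp] theorem bt_nw (v : Vtx) : bt (v, .nw) = (v, .sw) := rfl
@[simp] theorem bt_sw (v : Vtx) : bt (v, .sw) = (v, .se) := rfl
@[simp] theorem bt_se (v : Vtx) : bt (v, .se) = (v, .ne) := rfl

theorem step_open {G : Set Edg} {σ : St} (h : be σ ∈ G) : step G σ = bm σ := by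
  obtain ⟨⟨x, y⟩, c⟩ := σ
  cases c <;> simp at h <;> simp [step, h]

theorem step_closed {G : Set Edg} {σ : St} (h : be σ ∉ G) : step G σ = bt σ := by
  obtain ⟨⟨x, y⟩, c⟩ := σ
  cases c <;> simp at h <;> simp [step, h]

theorem b_ends (σ : St) : (src (be σ) = σ.1 ∧ tgt (be σ) = (bm σ).1) ∨
    (src (be σ) = (bm σ).1 ∧ tgt (be σ) = σ.1) := by
  obtain ⟨⟨x, y⟩, c⟩ := σ
  cases c <;> simp

theorem bt_fst (σ : St) : (bt σ).1 = σ.1 := by
  obtain ⟨⟨x, y⟩, c⟩ := σ
  cases c <;> simp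

theorem b_loop (σ : St) : be (bm σ) ≠ be σ ∧ be (bt (bm σ)) ≠ be σ ∧
    be (bt (bt (bm σ))) ≠ be σ ∧ be (bt (bt (bt (bm σ)))) = be σ ∧
    bm (bt (bt (bt (bm σ)))) = bt σ := by
  obtain ⟨⟨x, y⟩, c⟩ := σ
  cases c <;> simp

theorem be_inj {σ τ : St} (h : σ.1 = τ.1) (h' : be σ = be τ) : σ = τ := by
  obtain ⟨⟨x, y⟩, c⟩ := σ
  obtain ⟨⟨x', y'⟩, c'⟩ := τ
  simp only [Prod.mk.injEq] at h
  obtain ⟨rfl, rfl⟩ := h
  cases c <;> cases c' <;> simp at h' ⊢ <;> omega

/-- the configuration with the open edges `F` -/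
def cf (F : Finset Edg) : Conf := fun e => decide (e ∈ F)

/-- the open edges of the half-plane -/
def Op (F : Finset Edg) : Set Edg := opn (cf F)

/-- edges which are open or closed at random -/
def Rn (e : Edg) : Prop := 0 ≤ e.2.1 ∧ ¬ (e.2.1 = 0 ∧ e.2.2 = true)

theorem mem_Op {F : Finset Edg} {e : Edg} :
    e ∈ Op F ↔ (e.2.1 = 0 ∧ e.2.2 = true ∧ e.1 < 0) ∨ (Rn e ∧ e ∈ F) := by
  have h : (cf F e = true) ↔ e ∈ F := by
    unfold cf
    simp
  constructor
  · rintro (h1 | ⟨h1, h2, h3⟩)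
    · exact Or.inl h1
    · exact Or.inr ⟨⟨h1, h2⟩, h.1 h3⟩
  · rintro (h1 | ⟨⟨h1, h2⟩, h3⟩)
    · exact Or.inl h1
    · exact Or.inr ⟨h1, h2, h.2 h3⟩

theorem Op_insert {F : Finset Edg} {e : Edg} (he : Rn e) : Op (insert e F) = insert e (Op F) := by
  ext e'
  rw [Set.mem_insert_iff, mem_Op, mem_Op, mem_insert]
  constructor
  · rintro (h | ⟨h1, h2 | h2⟩)
    · exact Or.inr (Or.inl h)
    · exact Or.inl h2
    · exact Or.inr (Or.inr ⟨h1, h2⟩)
  · rintro (h | h | ⟨h1, h2⟩)
    · rw [h]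
      exact Or.inr ⟨he, Or.inl rfl⟩
    · exact Or.inl h
    · exact Or.inr ⟨h1, Or.inr h2⟩

/-- the path -/
def pa (F : Finset Edg) (k : ℕ) : St := path (cf F) k

theorem pa_succ (F : Finset Edg) (k : ℕ) : pa F (k + 1) = step (Op F) (pa F k) := rfl

theorem pa_zero (F : Finset Edg) : pa F 0 = ((0, 0), .ne) := rfl

theorem pa_inj (F : Finset Edg) {i j : ℕ} (h : i ≠ j) : pa F i ≠ pa F j := path_inj _ h

theorem pa_nonneg (F : Finset Edg) (k : ℕ) : 0 ≤ (pa F k).1.2 := path_nonneg _ k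

/-- the even end of the edge examined at time `t` -/
def ye (F : Finset Edg) (t : ℕ) : Vtx := ev (be (pa F t))

/-- tested vertices -/
def Ts (y : Vtx) : Prop := Ev y ∧ 1 ≤ y.2

theorem ts_rn {y : Vtx} (hy : Ts y) {e : Edg} (he : src e = y ∨ tgt e = y) : Rn e := by
  obtain ⟨x, z, b⟩ := e
  obtain ⟨h1, h2⟩ := hy
  unfold Rn
  cases b
  · simp only [src_mk, tgt_false] at he
    simp only [Bool.false_eq_true, and_false, not_false_eq_true, and_true]
    rcases he with he | he <;> rw [← he] at h2 <;> simp only at h2 <;> omega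
  · simp only [src_mk, tgt_true] at he
    simp only [and_true]
    rcases he with he | he <;> rw [← he] at h2 <;> simp only at h2 <;> omega

theorem ts_op {y : Vtx} (hy : Ts y) {e : Edg} (he : src e = y ∨ tgt e = y) (F : Finset Edg) :
    e ∈ Op F ↔ e ∈ F := by
  rw [mem_Op]
  have h1 := ts_rn hy he
  constructor
  · rintro (⟨h2, h3, _⟩ | h2)
    · exact absurd ⟨h2, h3⟩ h1.2
    · exact h2.2
  · intro h
    exact Or.inr ⟨h1, h⟩

/-! ### many tests -/

theorem ev_row {e : Edg} {y : ℤ} (h1 : y ≤ (src e).2) (h2 : y ≤ (tgt e).2) : y ≤ (ev e).2 := by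
  rcases ev_end e with h | h <;> rw [h] <;> assumption

/-- among six successive steps one examines an edge of a tested vertex -/
theorem within (F : Finset Edg) (j : ℕ) : ∃ i, j ≤ i ∧ i ≤ j + 5 ∧ Ts (ye F i) := by
  by_contra hcon
  push Not at hcon
  have hnt : ∀ i, j ≤ i → i ≤ j + 5 → ¬ 1 ≤ (ye F i).2 := by
    intro i h1 h2 h3
    exact hcon i h1 h2 ⟨ev_even _, h3⟩
  -- high states
  have hi1 : ∀ i, j ≤ i → i ≤ j + 5 → ∀ x y : ℤ, pa F i = ((x, y), .se) → ¬ 1 ≤ y := by
    intro i h1 h2 x y h3 h4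
    refine hnt i h1 h2 ?_
    unfold ye
    rw [h3, be_se]
    exact ev_row (by simpa using h4) (by simpa using h4)
  have hi2 : ∀ i, j ≤ i → i ≤ j + 5 → ∀ x y : ℤ, pa F i = ((x, y), .nw) → ¬ 1 ≤ y := by
    intro i h1 h2 x y h3 h4
    refine hnt i h1 h2 ?_
    unfold ye
    rw [h3, be_nw]
    exact ev_row (by simpa using h4) (by simpa using h4)
  have hi3 : ∀ i, j ≤ i → i ≤ j + 5 → ∀ x y : ℤ, pa F i = ((x, y), .ne) → ¬ 1 ≤ y := by
    intro i h1 h2 x y h3 h4
    refine hnt i h1 h2 ?_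
    unfold ye
    rw [h3, be_ne]
    exact ev_row (by simpa using h4) (by simp; omega)
  have hi4 : ∀ i, j ≤ i → i ≤ j + 5 → ∀ x y : ℤ, pa F i = ((x, y), .sw) → ¬ 2 ≤ y := by
    intro i h1 h2 x y h3 h4
    refine hnt i h1 h2 ?_
    unfold ye
    rw [h3, be_sw]
    exact ev_row (by simp; omega) (by simp; omega)
  -- the corner `ne` of an odd vertex of the axis
  have ho : ∀ i, j ≤ i → i ≤ j + 5 → ∀ x : ℤ, pa F i = ((x, 0), .ne) → ¬ Odd x := by
    intro i h1 h2 x h3 h4
    refine hnt i h1 h2 ?_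
    unfold ye
    have h5 : ev ((x, 0, false) : Edg) = (x, 1) := by
      refine ev_of ?_ (Or.inr (by simp))
      show Even (x + 1)
      exact h4.add_one
    rw [h3, be_ne, h5]
  -- transitions
  have hopen : ∀ i : ℕ, be (pa F i) ∈ Op F → pa F (i + 1) = bm (pa F i) := by
    intro i h
    rw [pa_succ, step_open h]
  have hclosed : ∀ i : ℕ, be (pa F i) ∉ Op F → pa F (i + 1) = bt (pa F i) := by
    intro i h
    rw [pa_succ, step_closed h]
  have hax : ∀ x : ℤ, x < 0 → ((x, 0, true) : Edg) ∈ Op F := by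
    intro x hx
    rw [mem_Op]
    exact Or.inl ⟨rfl, rfl, hx⟩
  have hax' : ∀ x : ℤ, 0 ≤ x → ((x, 0, true) : Edg) ∉ Op F := by
    intro x hx h
    rw [mem_Op] at h
    rcases h with ⟨_, _, h⟩ | ⟨⟨_, h⟩, _⟩
    · have : x < 0 := h
      omega
    · exact h ⟨rfl, rfl⟩
  have hso : ∀ x : ℤ, ((x, 0 - 1, false) : Edg) ∉ Op F := by
    intro x h
    rw [mem_Op] at h
    rcases h with ⟨h, _⟩ | ⟨⟨h, _⟩, _⟩
    · have : (0 : ℤ) - 1 = 0 := h
      omega
    · have : (0 : ℤ) ≤ 0 - 1 := h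
      omega
  -- `ne` on the axis, even: the edge is closed and we are at `nw`
  have hne : ∀ i, j ≤ i → i + 1 ≤ j + 5 → ∀ x : ℤ, pa F i = ((x, 0), .ne) →
      ((x, 0, false) : Edg) ∉ Op F ∧ pa F (i + 1) = ((x, 0), .nw) := by
    intro i h1 h2 x h3
    by_cases h4 : ((x, 0, false) : Edg) ∈ Op F
    · exfalso
      have h5 := hopen i (by rw [h3, be_ne]; exact h4)
      rw [h3, bm_ne] at h5
      exact hi1 (i + 1) (by omega) h2 _ _ h5 (by norm_num)
    · have h5 := hclosed i (by rw [h3, be_ne]; exact h4)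
      rw [h3, bt_ne] at h5
      exact ⟨h4, h5⟩
  -- `nw` on the axis with `x ≤ 0`
  have hnw : ∀ i, j ≤ i → i + 1 ≤ j + 5 → ∀ x : ℤ, x ≤ 0 → Even x → pa F i = ((x, 0), .nw) →
      False := by
    intro i h1 h2 x hx hxe h3
    have h5 := hopen i (by rw [h3, be_nw]; exact hax _ (by omega))
    rw [h3, bm_nw] at h5
    refine ho (i + 1) (by omega) h2 _ h5 ?_
    exact hxe.sub_odd odd_one
  -- the rounds at `x > 0`
  have hnw' : ∀ i, ∀ x : ℤ, 0 < x → pa F i = ((x, 0), .nw) → pa F (i + 1) = ((x, 0), .sw) := by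
    intro i x hx h3
    have h5 := hclosed i (by rw [h3, be_nw]; exact hax' _ (by omega))
    rw [h3, bt_nw] at h5
    exact h5
  have hsw' : ∀ i, ∀ x : ℤ, pa F i = ((x, 0), .sw) → pa F (i + 1) = ((x, 0), .se) := by
    intro i x h3
    have h5 := hclosed i (by rw [h3, be_sw]; exact hso _)
    rw [h3, bt_sw] at h5
    exact h5
  have hse' : ∀ i, ∀ x : ℤ, 0 ≤ x → pa F i = ((x, 0), .se) → pa F (i + 1) = ((x, 0), .ne) := by
    intro i x hx h3
    have h5 := hclosed i (by rw [h3, be_se]; exact hax' _ hx)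
    rw [h3, bt_se] at h5
    exact h5
  have hbad := Ret_not_bad (cf F)
  -- a round cannot be completed
  have hround : ∀ i, j ≤ i → i + 1 ≤ j + 5 → ∀ x : ℤ, pa F i = ((x, 0), .ne) →
      Even x ∧ pa F (i + 1) = ((x, 0), .nw) ∧ ((x, 0, false) : Edg) ∉ Op F := by
    intro i h1 h2 x h3
    obtain ⟨h4, h5⟩ := hne i h1 h2 x h3
    refine ⟨?_, h5, h4⟩
    rw [← Int.not_odd_iff_even]
    exact ho i h1 (by omega) x h3
  obtain ⟨σ, hσ⟩ : ∃ σ, σ = pa F j := ⟨_, rfl⟩
  obtain ⟨⟨x, y⟩, c⟩ := σ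
  have hy0 : 0 ≤ y := by
    have := pa_nonneg F j
    rw [← hσ] at this
    exact this
  have hj := hσ.symm
  rcases lt_trichotomy y 1 with hy | hy | hy
  · -- the axis
    obtain rfl : y = 0 := by omega
    cases c
    · -- ne
      obtain ⟨h1, h2, h3⟩ := hround j le_rfl (by omega) x hj
      rcases le_or_gt x 0 with hx | hx
      · exact hnw (j + 1) (by omega) (by omega) x hx h1 h2
      · have h4 := hnw' _ x hx h2
        have h5 := hsw' _ x h4
        have h6 := hse' _ x hx.le h5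
        exact pa_inj F (show j ≠ j + 1 + 1 + 1 + 1 by omega) (hj.trans h6.symm)
    · -- nw
      rcases le_or_gt x 0 with hx | hx
      · have h5 := hopen j (by rw [hj, be_nw]; exact hax _ (by omega))
        rw [hj, bm_nw] at h5
        obtain ⟨h1, h2, h3⟩ := hround (j + 1) (by omega) (by omega) _ h5
        exact hnw (j + 1 + 1) (by omega) (by omega) _ (by omega) h1 h2
      · have h4 := hnw' _ x hx hj
        have h5 := hsw' _ x h4
        have h6 := hse' _ x hx.le h5
        obtain ⟨h1, h2, h3⟩ := hround _ (by omega) (by omega) _ h6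
        exact pa_inj F (show j ≠ j + 1 + 1 + 1 + 1 by omega) (hj.trans h2.symm)
    · -- sw
      have hx : 0 < x := by
        by_contra hx
        refine hbad j ?_
        have : path (cf F) j = ((x, 0), .sw) := hj
        rw [this]
        exact ⟨rfl, Or.inl ⟨rfl, by simpa using hx⟩⟩
      have h5 := hsw' _ x hj
      have h6 := hse' _ x hx.le h5
      obtain ⟨h1, h2, h3⟩ := hround _ (by omega) (by omega) _ h6
      have h4 := hnw' _ x hx h2
      exact pa_inj F (show j ≠ j + 1 + 1 + 1 + 1 by omega) (hj.trans h4.symm)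
    · -- se
      have hx : 0 ≤ x := by
        by_contra hx
        refine hbad j ?_
        have : path (cf F) j = ((x, 0), .se) := hj
        rw [this]
        exact ⟨rfl, Or.inr ⟨rfl, by simpa using hx⟩⟩
      have h6 := hse' _ x hx hj
      obtain ⟨h1, h2, h3⟩ := hround _ (by omega) (by omega) _ h6
      rcases le_or_gt x 0 with hx0 | hx0
      · exact hnw (j + 1 + 1) (by omega) (by omega) _ hx0 h1 h2
      · have h4 := hnw' _ x hx0 h2
        have h5 := hsw' _ x h4
        exact pa_inj F (show j ≠ j + 1 + 1 + 1 + 1 by omega) (hj.trans h5.symm)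
  · -- the first row
    subst hy
    cases c
    · exact hi3 j le_rfl (by omega) _ _ hj le_rfl
    · exact hi2 j le_rfl (by omega) _ _ hj le_rfl
    · -- sw
      by_cases h1 : ((x, 1 - 1, false) : Edg) ∈ Op F
      · have h5 := hopen j (by rw [hj, be_sw]; exact h1)
        rw [hj, bm_sw] at h5
        have h5' : pa F (j + 1) = ((x, 0), .nw) := h5
        rcases le_or_gt x 0 with hx | hx
        · have hxe : Even x := by
            rw [← Int.not_odd_iff_even]
            intro hxo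
            refine hnt j le_rfl (by omega) ?_
            unfold ye
            have h6 : ev ((x, 1 - 1, false) : Edg) = (x, 1) := by
              refine ev_of ?_ (Or.inr (by simp))
              show Even (x + 1)
              exact hxo.add_one
            rw [hj, be_sw, h6]
          exact hnw (j + 1) (by omega) (by omega) _ hx hxe h5'
        · have h4 := hnw' _ x hx h5'
          have h6 := hsw' _ x h4
          have h7 := hse' _ x hx.le h6
          have h8 := hopen _ (by rw [h7, be_ne]; exact h1)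
          rw [h7, bm_ne] at h8
          exact hi1 _ (by omega) (by omega) _ _ h8 (by norm_num)
      · have h5 := hclosed j (by rw [hj, be_sw]; exact h1)
        rw [hj, bt_sw] at h5
        exact hi1 _ (by omega) (by omega) _ _ h5 le_rfl
    · exact hi1 j le_rfl (by omega) _ _ hj le_rfl
  · cases c
    · exact hi3 j le_rfl (by omega) _ _ hj (by omega)
    · exact hi2 j le_rfl (by omega) _ _ hj (by omega)
    · exact hi4 j le_rfl (by omega) _ _ hj (by omega)
    · exact hi1 j le_rfl (by omega) _ _ hj (by omega)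

/-- the tested vertices visited before time `t` -/
def Vt (F : Finset Edg) (t : ℕ) : Finset Vtx := Fl ((range t).image (fun j => ye F j)) Ts

theorem mem_Vt {F : Finset Edg} {t : ℕ} {y : Vtx} : y ∈ Vt F t ↔ (∃ j < t, ye F j = y) ∧ Ts y := by
  unfold Vt
  rw [mem_Fl]
  simp

/-- there are many tested vertices -/
theorem vt_ge (F : Finset Edg) (k : ℕ) : k ≤ 120 * (Vt F (6 * k)).card := by
  -- `k` times of tests
  have hex : ∀ q : ℕ, ∃ i, 6 * q ≤ i ∧ i ≤ 6 * q + 5 ∧ Ts (ye F i) := fun q => within F (6 * q)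
  choose f hf1 hf2 hf3 using hex
  obtain ⟨nb, hnb⟩ : ∃ nb : Vtx → Finset Vtx, nb = fun y =>
    {y, (y.1 + 1, y.2), (y.1 - 1, y.2), (y.1, y.2 + 1), (y.1, y.2 - 1)} := ⟨_, rfl⟩
  have hnbc : ∀ y, (nb y).card ≤ 5 := by
    intro y
    rw [hnb]
    exact Finset.card_le_five
  have hnb1 : ∀ σ : St, σ.1 ∈ nb (ev (be σ)) := by
    rintro ⟨⟨x, y⟩, c⟩
    rw [hnb]
    rcases ev_end (be ((x, y), c)) with h | h
    · rw [h]
      cases c <;> simp
    · rw [h]
      cases c <;> simp
  have h1 : (range k).card ≤ (((Vt F (6 * k)).biUnion nb) ×ˢ (Finset.univ : Finset Q4)).card := by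
    refine card_le_card_of_injOn (fun q => pa F (f q)) ?_ ?_
    · intro q hq
      have hq' : q < k := by simpa using hq
      rw [mem_coe, mem_product]
      refine ⟨mem_biUnion.2 ⟨ye F (f q), ?_, hnb1 _⟩, mem_univ _⟩
      have := hf2 q
      exact mem_Vt.2 ⟨⟨f q, by omega, rfl⟩, hf3 q⟩
    · intro q hq q' hq' h
      by_contra hne
      have h3 : f q ≠ f q' := by
        have := hf1 q
        have := hf2 q
        have := hf1 q'
        have := hf2 q'
        omega
      exact pa_inj F h3 h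
  rw [card_range, card_product] at h1
  have hQ : (Finset.univ : Finset Q4).card = 4 := by decide
  rw [hQ] at h1
  have h2 : ((Vt F (6 * k)).biUnion nb).card ≤ (Vt F (6 * k)).card * 5 :=
    card_biUnion_le_card_mul _ _ _ (fun y _ => hnbc y)
  omega

end

end Pool.Agent.U198.HP
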