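import Pool.Agent.U198.HP.Fin
import Pool.Agent.R965.HT.Top

/-!
# The exit times of the half-plane path
-/

set_option autoImplicit false
set_option linter.unusedVariables false

namespace Pool.Agent.U198.HP

open H974 Finset H342P H984P H984N H984H MeasureTheory
open Pool.Agent.U198.FK (Fl mem_Fl Ev ev ev_even ev_end ev_of ev_iff)
open scoped Classical

noncomputable section

theorem tau_cut {R : ℝ} {K m : ℕ} (hm : K ≤ m) {ω : Conf}
    (h : ∃ k ≤ K, R ≤ ‖place (path ω k)‖) : tau R (pa (cut ω m)) = tau R (path ω) := by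
  obtain ⟨h1, h2, h3⟩ := tau_spec h
  refine tau_eq ?_ ?_
  · rw [← path_cut ω _ (by omega)]
    exact h2
  · intro b hb
    rw [← path_cut ω _ (by omega)]
    exact h3 b hb

theorem cut_int (m : ℕ) (g : Finset Edg → ℝ) : ∫ ω, g (cut ω m) ∂perc =
    (1 / 2) ^ (bx m).edges.card * ∑ F ∈ (bx m).edges.powerset, g F :=
  (perc_cut_int _ _).trans (H984N.Ex_half _ _)

/-- before the exit -/
theorem pw {R : ℝ} {K t L : ℕ} {p : ℕ → St} (h : ∃ k ≤ K, R ≤ ‖place (p k)‖)
    (ht : t ≤ tau R p) :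
    tau R (fun k => p (t + min k (K + L))) = tau R p - t ∧
    oddL p (tau R p) = oddL p t ++ oddL (fun k => p (t + min k (K + L))) (tau R p - t) ∧
    (fun k => (fun k => p (t + min k (K + L))) (tau R p - t + min k L)) =
      fun k => p (tau R p + min k L) := by
  obtain ⟨h1, h2, h3⟩ := tau_spec h
  refine ⟨?_, ?_, ?_⟩
  · refine tau_eq ?_ ?_
    · show R ≤ ‖place (p (t + min (tau R p - t) (K + L)))‖
      rw [show t + min (tau R p - t) (K + L) = tau R p by omega]
      exact h2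
    · intro b hb
      show ¬ R ≤ ‖place (p (t + min b (K + L)))‖
      exact h3 _ (by omega)
  · have e1 := oddL_add p t (tau R p - t)
    rw [show t + (tau R p - t) = tau R p by omega] at e1
    rw [e1]
    congr 1
    refine oddL_congr (fun j hj => ?_)
    show p (t + j) = p (t + min j (K + L))
    rw [show min j (K + L) = j by omega]
  · funext k
    show p (t + min (tau R p - t + min k L) (K + L)) = p (tau R p + min k L)
    rw [show t + min (tau R p - t + min k L) (K + L) = tau R p + min k L by omega]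

theorem exit_gen (r : ℕ) : ∃ C : ℝ, 0 < C ∧ ∀ n : ℕ, 1 ≤ n → ∀ (R : ℝ) (L : ℕ)
    (Ψ : ℕ → List St → (ℕ → St) → ℝ), (∀ a b c, |Ψ a b c| ≤ 1) →
    |∑ i ∈ range (r + 1), (-1 : ℝ) ^ i * (r.choose i : ℝ) *
      ∫ ω, Ψ (tau R (path ω) + 4 * i) (oddL (path ω) (tau R (path ω)))
        (fun k => path ω (tau R (path ω) + min k L)) ∂perc| ≤
      C / Real.sqrt n ^ r + 2 ^ (r + 1) * perc.real {ω | tau R (path ω) < n + 4 * r} := by
  obtain ⟨C, hC, h⟩ := mainP r
  refine ⟨C, hC, ?_⟩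
  intro n hn R L Ψ hΨ
  obtain ⟨K, hK⟩ := ex_exit R
  obtain ⟨Φ, hΦ⟩ : ∃ Φ : List St → (ℕ → St) → ℝ, Φ = fun a p =>
    Ψ (n + 4 * r + tau R p) (a ++ oddL p (tau R p)) (fun k => p (tau R p + min k L)) := ⟨_, rfl⟩
  have h1 := h n hn (K + L) Φ (fun a b => by rw [hΦ]; exact hΨ _ _ _)
  obtain ⟨J, hJ⟩ : ∃ J : ℕ → ℝ, J = fun i =>
    ∫ ω, Φ (oddL (path ω) (n + 4 * i)) (fun k => path ω (n + 4 * i + min k (K + L))) ∂perc :=
    ⟨_, rfl⟩
  obtain ⟨I, hI⟩ : ∃ I : ℕ → ℝ, I = fun i =>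
    ∫ ω, Ψ (tau R (path ω) + 4 * i) (oddL (path ω) (tau R (path ω)))
        (fun k => path ω (tau R (path ω) + min k L)) ∂perc := ⟨_, rfl⟩
  obtain ⟨p, hp⟩ : ∃ p, p = perc.real {ω | tau R (path ω) < n + 4 * r} := ⟨_, rfl⟩
  have hIJ : ∀ i, i ≤ r → |I i - J (r - i)| ≤ 2 * p := by
    intro i hi
    obtain ⟨m, hm⟩ : ∃ m, m = n + 4 * r + K + L := ⟨_, rfl⟩
    obtain ⟨t, ht⟩ : ∃ t, t = n + 4 * (r - i) := ⟨_, rfl⟩
    obtain ⟨gI, hgI⟩ : ∃ gI : Finset Edg → ℝ, gI = fun F =>
      Ψ (tau R (pa F) + 4 * i) (oddL (pa F) (tau R (pa F)))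
        (fun k => pa F (tau R (pa F) + min k L)) := ⟨_, rfl⟩
    obtain ⟨gJ, hgJ⟩ : ∃ gJ : Finset Edg → ℝ, gJ = fun F =>
      Φ (oddL (pa F) t) (fun k => pa F (t + min k (K + L))) := ⟨_, rfl⟩
    have e1 : I i = (1 / 2) ^ (bx m).edges.card * ∑ F ∈ (bx m).edges.powerset, gI F := by
      rw [← cut_int, hI]
      refine integral_congr_ae (Filter.Eventually.of_forall fun ω => ?_)
      have h2 := tau_cut (m := m) (by omega) (hK ω)
      have h4 := (tau_spec (hK ω)).1
      show _ = gI (cut ω m)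
      rw [hgI]
      simp only
      rw [h2]
      have h5 : oddL (path ω) (tau R (path ω)) = oddL (pa (cut ω m)) (tau R (path ω)) :=
        oddL_dep (m := m) (by omega) (fun j hj => path_cut ω j hj)
      have h6 : (fun k => path ω (tau R (path ω) + min k L)) =
          fun k => pa (cut ω m) (tau R (path ω) + min k L) := by
        funext k
        exact path_cut ω _ (by omega)
      rw [h5, h6]
    have e2 : J (r - i) = (1 / 2) ^ (bx m).edges.card *
        ∑ F ∈ (bx m).edges.powerset, gJ F := by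
      rw [← cut_int, hJ]
      show ∫ ω, Φ (oddL (path ω) (n + 4 * (r - i)))
        (fun k => path ω (n + 4 * (r - i) + min k (K + L))) ∂perc = _
      rw [← ht]
      refine integral_congr_ae (Filter.Eventually.of_forall fun ω => ?_)
      show _ = gJ (cut ω m)
      rw [hgJ]
      simp only
      have h5 : oddL (path ω) t = oddL (pa (cut ω m)) t :=
        oddL_dep (m := m) (by omega) (fun j hj => path_cut ω j hj)
      have h6 : (fun k => path ω (t + min k (K + L))) =
          fun k => pa (cut ω m) (t + min k (K + L)) := by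
        funext k
        exact path_cut ω _ (by omega)
      rw [h5, h6]
    have e3 : p = (1 / 2) ^ (bx m).edges.card * ∑ F ∈ (bx m).edges.powerset,
        ind (tau R (pa F) < n + 4 * r) := by
      have h2 : {ω : Conf | tau R (path ω) < n + 4 * r} =
          {ω : Conf | (fun F => tau R (pa F) < n + 4 * r) (cut ω m)} := by
        ext ω
        simp only [Set.mem_ofPred_eq]
        rw [tau_cut (m := m) (by omega) (hK ω)]
      rw [hp, h2]
      exact (perc_cut (m : ℤ) (fun F => tau R (pa F) < n + 4 * r)).trans (H984N.Ex_half _ _)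
    have e4 : ∀ F, |gI F - gJ F| ≤ 2 * ind (tau R (pa F) < n + 4 * r) := by
      intro F
      by_cases h2 : tau R (pa F) < n + 4 * r
      · rw [ind_of h2, mul_one]
        have h3 : |gI F| ≤ 1 := by rw [hgI]; exact hΨ _ _ _
        have h4 : |gJ F| ≤ 1 := by rw [hgJ, hΦ]; exact hΨ _ _ _
        have h5 := abs_sub (gI F) (gJ F)
        linarith
      · rw [ind_not_of h2, mul_zero]
        push Not at h2
        obtain ⟨q1, q2, q3⟩ := pw (R := R) (K := K) (t := t) (L := L) (p := pa F)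
          (hK (cf F)) (by omega)
        have h3 : gI F = gJ F := by
          rw [hgI, hgJ, hΦ]
          simp only
          rw [q1, ← q2, show n + 4 * r + (tau R (pa F) - t) = tau R (pa F) + 4 * i by omega]
          have q3' : (fun k => pa F (t + min (tau R (pa F) - t + min k L) (K + L))) =
            fun k => pa F (tau R (pa F) + min k L) := q3
          rw [q3']
        rw [h3, sub_self, abs_zero]
    rw [e1, e2, e3, ← mul_sub, ← sum_sub_distrib, abs_mul, abs_of_pos (by positivity),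
      show 2 * ((1 / 2 : ℝ) ^ (bx m).edges.card * ∑ F ∈ (bx m).edges.powerset,
        ind (tau R (pa F) < n + 4 * r)) = (1 / 2 : ℝ) ^ (bx m).edges.card *
        ∑ F ∈ (bx m).edges.powerset, 2 * ind (tau R (pa F) < n + 4 * r) by
        rw [← mul_sum]; ring]
    refine mul_le_mul_of_nonneg_left ?_ (by positivity)
    exact (abs_sum_le_sum_abs _ _).trans (sum_le_sum fun F _ => e4 F)
  -- the sum
  have hS : ∑ i ∈ range (r + 1), (-1 : ℝ) ^ i * (r.choose i : ℝ) * J (r - i) =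
      (-1) ^ r * ∑ i ∈ range (r + 1), (-1 : ℝ) ^ i * (r.choose i : ℝ) * J i := by
    rw [mul_sum, ← sum_range_reflect]
    refine sum_congr rfl fun i hi => ?_
    have hi' : i ≤ r := by
      have := mem_range.1 hi
      omega
    have h2 : r + 1 - 1 - i = r - i := by omega
    rw [h2, show r - (r - i) = i by omega, Nat.choose_symm hi']
    have h3 : (-1 : ℝ) ^ (r - i) = (-1) ^ r * (-1) ^ i := by
      rw [← pow_add, show r + i = (r - i) + 2 * i by omega, pow_add, pow_mul]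
      norm_num
    rw [h3]
    ring
  have h2 : |∑ i ∈ range (r + 1), (-1 : ℝ) ^ i * (r.choose i : ℝ) * J (r - i)| ≤
      C / Real.sqrt n ^ r := by
    rw [hS, abs_mul, abs_pow, abs_neg, abs_one, one_pow, one_mul, hJ]
    exact h1
  have h3 : ∑ i ∈ range (r + 1), (-1 : ℝ) ^ i * (r.choose i : ℝ) * I i =
      ∑ i ∈ range (r + 1), (-1 : ℝ) ^ i * (r.choose i : ℝ) * J (r - i) +
      ∑ i ∈ range (r + 1), (-1 : ℝ) ^ i * (r.choose i : ℝ) * (I i - J (r - i)) := by
    rw [← sum_add_distrib]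
    refine sum_congr rfl fun i _ => ?_
    ring
  have h4 : |∑ i ∈ range (r + 1), (-1 : ℝ) ^ i * (r.choose i : ℝ) * (I i - J (r - i))| ≤
      2 ^ (r + 1) * p := by
    calc |∑ i ∈ range (r + 1), (-1 : ℝ) ^ i * (r.choose i : ℝ) * (I i - J (r - i))| ≤
        ∑ i ∈ range (r + 1), |(-1 : ℝ) ^ i * (r.choose i : ℝ) * (I i - J (r - i))| :=
          abs_sum_le_sum_abs _ _
      _ ≤ ∑ i ∈ range (r + 1), (r.choose i : ℝ) * (2 * p) := by
          refine sum_le_sum fun i hi => ?_
          have hi' : i ≤ r := by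
            have := mem_range.1 hi
            omega
          rw [abs_mul, abs_mul, abs_pow, abs_neg, abs_one, one_pow, one_mul, Nat.abs_cast]
          exact mul_le_mul_of_nonneg_left (hIJ i hi') (Nat.cast_nonneg _)
      _ = (∑ i ∈ range (r + 1), (r.choose i : ℝ)) * (2 * p) := by rw [sum_mul]
      _ = 2 ^ r * (2 * p) := by
          have := Nat.sum_range_choose r
          have h5 : ∑ i ∈ range (r + 1), (r.choose i : ℝ) = 2 ^ r := by exact_mod_cast this
          rw [h5]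
      _ = _ := by ring
  have h5 : ∑ i ∈ range (r + 1), (-1 : ℝ) ^ i * (r.choose i : ℝ) *
      ∫ ω, Ψ (tau R (path ω) + 4 * i) (oddL (path ω) (tau R (path ω)))
        (fun k => path ω (tau R (path ω) + min k L)) ∂perc =
      ∑ i ∈ range (r + 1), (-1 : ℝ) ^ i * (r.choose i : ℝ) * I i := by
    rw [hI]
  rw [h5, h3, ← hp]
  exact (abs_add_le _ _).trans (add_le_add h2 h4)

/-- the scale -/
def sc (R : ℝ) : ℝ := R ^ (7 / 4 : ℝ) / Real.log R ^ (3 / 4 : ℝ)

theorem sc_props {R : ℝ} (hR : 2 ≤ R) : 0 < sc R ∧ sc R ≤ 2 * R ^ 2 ∧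
    sc R ^ (4 / 3 : ℝ) = R ^ (7 / 3 : ℝ) / Real.log R := by
  have hR0 : 0 < R := by linarith
  have hlog : 1 / 2 ≤ Real.log R := by
    have h1 := Real.log_two_gt_d9
    have h2 := Real.log_le_log (by norm_num : (0 : ℝ) < 2) hR
    linarith
  have hlog0 : 0 < Real.log R := by linarith
  unfold sc
  refine ⟨by positivity, ?_, ?_⟩
  · rw [div_le_iff₀ (by positivity)]
    have h1 : (1 / 2 : ℝ) ≤ Real.log R ^ (3 / 4 : ℝ) := by
      calc (1 / 2 : ℝ) = (1 / 2 : ℝ) ^ (1 : ℝ) := by rw [Real.rpow_one]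
        _ ≤ (1 / 2 : ℝ) ^ (3 / 4 : ℝ) :=
          Real.rpow_le_rpow_of_exponent_ge (by norm_num) (by norm_num) (by norm_num)
        _ ≤ Real.log R ^ (3 / 4 : ℝ) := Real.rpow_le_rpow (by norm_num) hlog (by norm_num)
    have h2 : R ^ (7 / 4 : ℝ) ≤ R ^ 2 := by
      rw [← Real.rpow_natCast]
      exact Real.rpow_le_rpow_of_exponent_le (by linarith) (by norm_num)
    have h3 : 0 ≤ R ^ 2 := by positivity
    nlinarith
  · rw [Real.div_rpow (by positivity) (by positivity), ← Real.rpow_mul hR0.le,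
      ← Real.rpow_mul hlog0.le]
    norm_num

theorem sc_pow {R : ℝ} (hR : 2 ≤ R) (r : ℕ) : 1 / Real.sqrt (sc R) ^ r =
    Real.log R ^ (3 * r / 8 : ℝ) / R ^ (7 * r / 8 : ℝ) := by
  have hR0 : 0 < R := by linarith
  have hlog0 : 0 < Real.log R := Real.log_pos (by linarith)
  have h1 := (sc_props hR).1
  rw [Real.sqrt_eq_rpow, ← Real.rpow_natCast, ← Real.rpow_mul h1.le]
  unfold sc
  rw [Real.div_rpow (by positivity) (by positivity), ← Real.rpow_mul hR0.le,
    ← Real.rpow_mul hlog0.le, one_div_div]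
  congr 2 <;> ring

theorem exitR (r : ℕ) : ∃ C : ℝ, 0 < C ∧ ∀ R : ℝ, 2 ≤ R → ∀ (L : ℕ)
    (Ψ : ℕ → List St → (ℕ → St) → ℝ), (∀ a b c, |Ψ a b c| ≤ 1) →
    |∑ i ∈ range (r + 1), (-1 : ℝ) ^ i * (r.choose i : ℝ) *
      ∫ ω, Ψ (tau R (path ω) + 4 * i) (oddL (path ω) (tau R (path ω)))
        (fun k => path ω (tau R (path ω) + min k L)) ∂perc| ≤
      C * Real.log R ^ (3 * r / 8 : ℝ) / R ^ (7 * r / 8 : ℝ) := by
  obtain ⟨C, hC, h⟩ := exit_gen r
  obtain ⟨a, A, _, ha, hA, _, hlarge, _⟩ := Pool.Agent.R965.HT.large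
  have hr0 : (0 : ℝ) ≤ r := Nat.cast_nonneg r
  obtain ⟨b, hb⟩ : ∃ b : ℝ, b = (a / (r + 1)) ^ (3 / 4 : ℝ) := ⟨_, rfl⟩
  have hb0 : 0 < b := by rw [hb]; positivity
  have hb43 : b ^ (4 / 3 : ℝ) = a / (r + 1) := by
    rw [hb, ← Real.rpow_mul (by positivity)]
    norm_num
  obtain ⟨c1, hc1⟩ : ∃ c1 : ℝ, c1 = Real.sqrt ((8 * r + 4) / b) ^ r := ⟨_, rfl⟩
  obtain ⟨c2, hc2⟩ : ∃ c2 : ℝ, c2 = Real.sqrt (2 / b) ^ r := ⟨_, rfl⟩
  have hc10 : 0 ≤ c1 := by rw [hc1]; positivity
  have hc20 : 0 ≤ c2 := by rw [hc2]; positivity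
  refine ⟨2 ^ r * c1 + C * c2 + 2 ^ (r + 1) * (A * 2 ^ r), by positivity, ?_⟩
  intro R hR L Ψ hΨ
  have hR0 : 0 < R := by linarith
  have hlog0 : 0 < Real.log R := Real.log_pos (by linarith)
  obtain ⟨s, hs⟩ : ∃ s, s = sc R := ⟨_, rfl⟩
  obtain ⟨hs0, hs2, hs43⟩ := sc_props hR
  have hpow := sc_pow hR r
  rw [← hs] at hs0 hs2 hs43 hpow
  have hsr : 0 < Real.sqrt s ^ r := pow_pos (Real.sqrt_pos.2 hs0) _
  rw [mul_div_assoc, ← hpow]
  obtain ⟨X, hX⟩ : ∃ X, X = |∑ i ∈ range (r + 1), (-1 : ℝ) ^ i * (r.choose i : ℝ) *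
      ∫ ω, Ψ (tau R (path ω) + 4 * i) (oddL (path ω) (tau R (path ω)))
        (fun k => path ω (tau R (path ω) + min k L)) ∂perc| := ⟨_, rfl⟩
  rw [← hX]
  have t1 : 0 ≤ 2 ^ r * c1 / Real.sqrt s ^ r := by positivity
  have t2 : 0 ≤ C * c2 / Real.sqrt s ^ r := by positivity
  have t3 : 0 ≤ 2 ^ (r + 1) * (A * 2 ^ r) / Real.sqrt s ^ r := by positivity
  have hsplit : (2 ^ r * c1 + C * c2 + 2 ^ (r + 1) * (A * 2 ^ r)) * (1 / Real.sqrt s ^ r) =
      2 ^ r * c1 / Real.sqrt s ^ r + C * c2 / Real.sqrt s ^ r +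
        2 ^ (r + 1) * (A * 2 ^ r) / Real.sqrt s ^ r := by ring
  rw [hsplit]
  rcases lt_or_ge (b * s) (8 * r + 4) with hcase | hcase
  · -- small radii
    have h1 : X ≤ 2 ^ r := by
      rw [hX]
      refine (abs_sum_le_sum_abs _ _).trans ?_
      have h5 : ∑ i ∈ range (r + 1), (r.choose i : ℝ) = 2 ^ r := by
        exact_mod_cast Nat.sum_range_choose r
      rw [← h5]
      refine sum_le_sum fun i _ => ?_
      rw [abs_mul, abs_mul, abs_pow, abs_neg, abs_one, one_pow, one_mul, Nat.abs_cast]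
      refine mul_le_of_le_one_right (Nat.cast_nonneg _) ?_
      rw [← Real.norm_eq_abs]
      refine (norm_integral_le_of_norm_le_const (C := 1)
        (Filter.Eventually.of_forall fun ω => ?_)).trans ?_
      · rw [Real.norm_eq_abs]
        exact hΨ _ _ _
      · simp
    have h2 : Real.sqrt s ^ r ≤ c1 := by
      rw [hc1]
      refine pow_le_pow_left₀ (Real.sqrt_nonneg _) (Real.sqrt_le_sqrt ?_) _
      rw [le_div_iff₀ hb0]
      linarith
    have h3 : (2 : ℝ) ^ r ≤ 2 ^ r * c1 / Real.sqrt s ^ r := by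
      rw [le_div_iff₀ hsr]
      exact mul_le_mul_of_nonneg_left h2 (by positivity)
    linarith
  · obtain ⟨N, hN⟩ : ∃ N : ℕ, N = ⌊b * s⌋₊ := ⟨_, rfl⟩
    have hbs0 : 0 ≤ b * s := by positivity
    have hN1 : (N : ℝ) ≤ b * s := by rw [hN]; exact Nat.floor_le hbs0
    have hN2 : b * s < N + 1 := by rw [hN]; exact Nat.lt_floor_add_one _
    have hN3 : 8 * r + 3 ≤ N := by
      have : (8 * r + 3 : ℝ) < N := by linarith
      have h1 : 8 * r + 3 < N := by exact_mod_cast this
      omega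
    obtain ⟨n, hn⟩ : ∃ n, N = n + 4 * r := ⟨N - 4 * r, by omega⟩
    have hnR : (N : ℝ) = n + 4 * r := by exact_mod_cast hn
    have h1 := h n (by omega) R L Ψ hΨ
    rw [← hX] at h1
    have hn2 : b * s / 2 ≤ n := by linarith
    have hn0 : (0 : ℝ) < n := by
      have : 1 ≤ n := by omega
      exact_mod_cast this
    -- the first term
    have h2 : C / Real.sqrt n ^ r ≤ C * c2 / Real.sqrt s ^ r := by
      have h3 : s ≤ (2 / b) * n := by
        rw [div_mul_eq_mul_div, le_div_iff₀ hb0]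
        linarith
      have h4 : Real.sqrt s ≤ Real.sqrt (2 / b) * Real.sqrt n := by
        rw [← Real.sqrt_mul (by positivity)]
        exact Real.sqrt_le_sqrt h3
      have h5 : Real.sqrt s ^ r ≤ c2 * Real.sqrt n ^ r := by
        rw [hc2, ← mul_pow]
        exact pow_le_pow_left₀ (Real.sqrt_nonneg _) h4 _
      rw [div_le_div_iff₀ (pow_pos (Real.sqrt_pos.2 hn0) _) hsr]
      calc C * Real.sqrt s ^ r ≤ C * (c2 * Real.sqrt n ^ r) :=
            mul_le_mul_of_nonneg_left h5 hC.le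
        _ = _ := by ring
    -- the probability
    have hN0 : (0 : ℝ) < N := by
      have : 1 ≤ N := by omega
      exact_mod_cast this
    have h3 : perc.real {ω | tau R (path ω) < n + 4 * r} ≤ A * 2 ^ r / Real.sqrt s ^ r := by
      rw [← hn]
      obtain ⟨x, hx⟩ : ∃ x : ℝ, x = R / (N : ℝ) ^ (4 / 7 : ℝ) := ⟨_, rfl⟩
      have hx0 : 0 < x := by rw [hx]; positivity
      have hxN : x * (N : ℝ) ^ (4 / 7 : ℝ) = R := by
        rw [hx, div_mul_cancel₀ _ (by positivity)]
      have h4 := hlarge N x (by omega) hx0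
      rw [hxN] at h4
      have h5 : perc.real {ω | tau R (path ω) < N} ≤ perc.real {ω | R ≤ reach N ω} := by
        refine measureReal_mono ?_ (measure_ne_top _ _)
        intro ω hω
        have hω' : tau R (path ω) < N := hω
        obtain ⟨K, hK⟩ := ex_exit R
        obtain ⟨_, h6, _⟩ := tau_spec (hK ω)
        show R ≤ reach N ω
        unfold reach
        refine h6.trans ?_
        exact Finset.le_sup' (fun k => ‖gam ω k‖) (mem_range.2 (by omega))
      have h6 : (r + 1) * Real.log R ≤ a * x ^ (7 / 3 : ℝ) := by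
        have e1 : x ^ (7 / 3 : ℝ) = R ^ (7 / 3 : ℝ) / (N : ℝ) ^ (4 / 3 : ℝ) := by
          rw [hx, Real.div_rpow hR0.le (by positivity), ← Real.rpow_mul hN0.le]
          norm_num
        have e2 : (N : ℝ) ^ (4 / 3 : ℝ) ≤ (a / (r + 1)) * (R ^ (7 / 3 : ℝ) / Real.log R) := by
          rw [← hb43, ← hs43, ← Real.mul_rpow hb0.le hs0.le]
          exact Real.rpow_le_rpow hN0.le hN1 (by norm_num)
        rw [e1, mul_div_assoc', le_div_iff₀ (by positivity)]
        have e3 : 0 < (r + 1) * Real.log R := by positivity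
        have e4 := mul_le_mul_of_nonneg_left e2 e3.le
        refine e4.trans (le_of_eq ?_)
        field_simp
      have h7 : Real.exp (-(a * x ^ (7 / 3 : ℝ))) ≤ 1 / R ^ r := by
        have e1 : Real.exp (-(r * Real.log R)) = 1 / R ^ r := by
          rw [Real.exp_neg, Real.exp_nat_mul, Real.exp_log hR0, one_div]
        rw [← e1]
        refine Real.exp_le_exp.2 ?_
        nlinarith
      have h8 : Real.sqrt s ^ r ≤ 2 ^ r * R ^ r := by
        rw [← mul_pow]
        refine pow_le_pow_left₀ (Real.sqrt_nonneg _) ?_ _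
        rw [Real.sqrt_le_left (by positivity)]
        nlinarith [sq_nonneg R]
      have h9 : A * (1 / R ^ r) ≤ A * 2 ^ r / Real.sqrt s ^ r := by
        rw [mul_one_div, div_le_div_iff₀ (by positivity) hsr]
        calc A * Real.sqrt s ^ r ≤ A * (2 ^ r * R ^ r) := mul_le_mul_of_nonneg_left h8 hA.le
          _ = _ := by ring
      exact h5.trans (h4.trans ((mul_le_mul_of_nonneg_left h7 hA.le).trans h9))
    have h10 : 2 ^ (r + 1) * perc.real {ω | tau R (path ω) < n + 4 * r} ≤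
        2 ^ (r + 1) * (A * 2 ^ r) / Real.sqrt s ^ r := by
      rw [mul_div_assoc]
      exact mul_le_mul_of_nonneg_left h3 (by positivity)
    linarith

end

end Pool.Agent.U198.HP
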