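import Pool.Agent.U198.HP.Orbit
import Pool.Agent.H984R4.HN.Perc

/-!
# The future of the half-plane path and its exit times
-/

set_option autoImplicit false
set_option linter.unusedVariables false

namespace Pool.Agent.U198.HP

open H974 Finset H342P H984P H984N H984H MeasureTheory
open Pool.Agent.U198.FK (Fl mem_Fl Ev ev ev_even ev_end ev_of ev_iff)
open Pool.Agent.N929.EG
open scoped Classical

noncomputable section

instance : IsProbabilityMeasure perc := by
  unfold perc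
  infer_instance

theorem be_box {σ : St} {m j : ℕ} (h1 : |σ.1.1| ≤ j) (h2 : |σ.1.2| ≤ j) (h3 : 0 ≤ σ.1.2)
    (hj : j + 1 ≤ m) (hR : Rn (be σ)) : be σ ∈ (bx m).edges := by
  obtain ⟨⟨x, y⟩, c⟩ := σ
  rw [abs_le] at h1 h2
  have hjm : (j : ℤ) + 1 ≤ m := by exact_mod_cast hj
  unfold Rn at hR
  cases c
  · simp only [be_ne] at hR h1 h2 h3 ⊢
    show _ ∈ RE (-(m : ℤ)) m 0 m
    rw [mem_RE_false]
    omega
  · simp only [be_nw] at hR h1 h2 h3 ⊢
    show _ ∈ RE (-(m : ℤ)) m 0 m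
    rw [mem_RE_true]
    omega
  · simp only [be_sw] at hR h1 h2 h3 ⊢
    show _ ∈ RE (-(m : ℤ)) m 0 m
    rw [mem_RE_false]
    omega
  · simp only [be_se] at hR h1 h2 h3 ⊢
    show _ ∈ RE (-(m : ℤ)) m 0 m
    rw [mem_RE_true]
    omega

/-- the path up to time `m` is determined by the edges in the box of size `m` -/
theorem path_cut (ω : Conf) {m : ℕ} : ∀ j, j ≤ m → path ω j = pa (cut ω m) j := by
  intro j
  induction j with
  | zero => intro _; rfl
  | succ j ih =>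
    intro hj
    have ih' := ih (by omega)
    obtain ⟨h2, h3⟩ := pa_near (cut ω m) j
    have h4 := pa_nonneg (cut ω m) j
    rw [path_succ, pa_succ, ih']
    have hiff : be (pa (cut ω m) j) ∈ opn ω ↔ be (pa (cut ω m) j) ∈ Op (cut ω m) := by
      rw [mem_Op, Perc_mem_cut]
      constructor
      · rintro (h | ⟨h5, h6, h7⟩)
        · exact Or.inl h
        · exact Or.inr ⟨⟨h5, h6⟩, be_box h2 h3 h4 hj ⟨h5, h6⟩, h7⟩
      · rintro (h | ⟨h5, h6, h7⟩)
        · exact Or.inl h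
        · exact Or.inr ⟨h5.1, h5.2, h7⟩
    by_cases h : be (pa (cut ω m) j) ∈ opn ω
    · rw [step_open h, step_open (hiff.1 h)]
    · rw [step_closed h, step_closed (fun h' => h (hiff.2 h'))]

theorem oddL_dep {p p' : ℕ → St} {t m : ℕ} (ht : t ≤ m) (h : ∀ j, j ≤ m → p j = p' j) :
    oddL p t = oddL p' t := oddL_congr (fun j hj => h j (by omega))

/-- **the past and the future** -/
theorem mainP (r : ℕ) : ∃ C : ℝ, 0 < C ∧ ∀ n : ℕ, 1 ≤ n → ∀ (L : ℕ)
    (Φ : List St → (ℕ → St) → ℝ), (∀ a b, |Φ a b| ≤ 1) →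
    |∑ i ∈ range (r + 1), (-1 : ℝ) ^ i * (r.choose i : ℝ) *
      ∫ ω, Φ (oddL (path ω) (n + 4 * i)) (fun k => path ω (n + 4 * i + min k L)) ∂perc| ≤
      C / Real.sqrt n ^ r := by
  obtain ⟨C, hC, h⟩ := fin_bound r
  refine ⟨C * 60 ^ r, by positivity, ?_⟩
  intro n hn L Φ hΦ
  obtain ⟨m, hm⟩ : ∃ m, m = n + 4 * r + L := ⟨_, rfl⟩
  obtain ⟨M, hM⟩ : ∃ M, M = n / 3600 := ⟨_, rfl⟩
  have h1 := h M m n (by omega) (by omega) (fun a p => Φ a (fun k => p (min k L)))
    (fun a b => hΦ _ _)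
  have h2 : ∀ i ∈ range (r + 1),
      ∫ ω, Φ (oddL (path ω) (n + 4 * i)) (fun k => path ω (n + 4 * i + min k L)) ∂perc =
      (1 / 2) ^ (bx m).edges.card * ∑ F ∈ (bx m).edges.powerset,
        Φ (oddL (pa F) (n + 4 * i)) (fun k => pa F (n + 4 * i + min k L)) := by
    intro i hi
    have hi' : i ≤ r := by
      have := mem_range.1 hi
      omega
    have h3 : (fun ω : Conf => Φ (oddL (path ω) (n + 4 * i))
        (fun k => path ω (n + 4 * i + min k L))) =
        fun ω : Conf => (fun F => Φ (oddL (pa F) (n + 4 * i))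
          (fun k => pa F (n + 4 * i + min k L))) (cut ω m) := by
      funext ω
      have h4 : oddL (path ω) (n + 4 * i) = oddL (pa (cut ω m)) (n + 4 * i) :=
        oddL_dep (m := m) (by omega) (fun j hj => path_cut ω j hj)
      have h5 : (fun k => path ω (n + 4 * i + min k L)) =
          fun k => pa (cut ω m) (n + 4 * i + min k L) := by
        funext k
        exact path_cut ω _ (by omega)
      rw [h4, h5]
    rw [h3]
    exact (perc_cut_int (m : ℤ) (fun F => Φ (oddL (pa F) (n + 4 * i))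
      (fun k => pa F (n + 4 * i + min k L)))).trans (H984N.Ex_half _ _)
  have h3 : ∑ i ∈ range (r + 1), (-1 : ℝ) ^ i * (r.choose i : ℝ) *
      ∫ ω, Φ (oddL (path ω) (n + 4 * i)) (fun k => path ω (n + 4 * i + min k L)) ∂perc =
      (1 / 2) ^ (bx m).edges.card * ∑ F ∈ (bx m).edges.powerset,
      Seq.D 4 r (fun t => (fun a p => Φ a (fun k => p (min k L))) (oddL (pa F) t)
        (fun k => pa F (t + k))) n := by
    rw [sum_congr rfl (fun i hi => by rw [h2 i hi])]
    unfold Seq.D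
    rw [sum_comm, mul_sum]
    refine sum_congr rfl fun i _ => ?_
    rw [mul_sum, mul_sum, mul_sum]
    refine sum_congr rfl fun F _ => ?_
    ring
  rw [h3, abs_mul, abs_of_pos (by positivity)]
  have hp : (0 : ℝ) < (1 / 2) ^ (bx m).edges.card := by positivity
  have h4 := mul_le_mul_of_nonneg_left h1 hp.le
  refine h4.trans ?_
  have hn0 : (0 : ℝ) < n := by exact_mod_cast hn
  have h5 : (n : ℝ) ≤ 3600 * ((M : ℝ) + 1) := by
    have : n ≤ 3600 * (M + 1) := by omega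
    exact_mod_cast this
  have h6 : Real.sqrt n ≤ 60 * Real.sqrt ((M : ℝ) + 1) := by
    rw [show (60 : ℝ) = Real.sqrt 3600 by
      rw [show (3600 : ℝ) = 60 ^ 2 by norm_num, Real.sqrt_sq (by norm_num)],
      ← Real.sqrt_mul (by norm_num)]
    exact Real.sqrt_le_sqrt h5
  have h7 : Real.sqrt n ^ r ≤ 60 ^ r * Real.sqrt ((M : ℝ) + 1) ^ r := by
    rw [← mul_pow]
    exact pow_le_pow_left₀ (Real.sqrt_nonneg _) h6 _
  have h8 : 0 < Real.sqrt n ^ r := pow_pos (Real.sqrt_pos.2 hn0) _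
  have h9 : 0 < Real.sqrt ((M : ℝ) + 1) ^ r := pow_pos (Real.sqrt_pos.2 (by positivity)) _
  have h10 : (1 / 2 : ℝ) ^ (bx m).edges.card *
      (C * 2 ^ (bx m).edges.card / Real.sqrt ((M : ℝ) + 1) ^ r) =
      C / Real.sqrt ((M : ℝ) + 1) ^ r := by
    rw [one_div, inv_pow]
    have : (2 : ℝ) ^ (bx m).edges.card ≠ 0 := by positivity
    field_simp
  rw [h10, div_le_div_iff₀ h9 h8]
  calc C * Real.sqrt n ^ r ≤ C * (60 ^ r * Real.sqrt ((M : ℝ) + 1) ^ r) :=
        mul_le_mul_of_nonneg_left h7 hC.le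
    _ = _ := by ring

/-! ### exit times -/

/-- the first time at which the path is at distance at least `R` from the origin -/
def tau (R : ℝ) (p : ℕ → St) : ℕ := sInf {k : ℕ | R ≤ ‖place (p k)‖}

theorem tau_eq {R : ℝ} {p : ℕ → St} {a : ℕ} (h1 : R ≤ ‖place (p a)‖)
    (h2 : ∀ b < a, ¬ R ≤ ‖place (p b)‖) : tau R p = a := by
  unfold tau
  apply le_antisymm
  · exact Nat.sInf_le h1
  · by_contra h3
    push Not at h3
    exact h2 _ h3 (Nat.sInf_mem (s := {k : ℕ | R ≤ ‖place (p k)‖}) ⟨a, h1⟩)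

theorem tau_spec {R : ℝ} {p : ℕ → St} {K : ℕ} (h : ∃ k ≤ K, R ≤ ‖place (p k)‖) :
    tau R p ≤ K ∧ R ≤ ‖place (p (tau R p))‖ ∧ ∀ b < tau R p, ¬ R ≤ ‖place (p b)‖ := by
  obtain ⟨k, hk, h1⟩ := h
  refine ⟨(Nat.sInf_le h1).trans hk,
    Nat.sInf_mem (s := {k : ℕ | R ≤ ‖place (p k)‖}) ⟨k, h1⟩, ?_⟩
  intro b hb h2
  exact absurd (Nat.sInf_le (s := {k : ℕ | R ≤ ‖place (p k)‖}) h2) (not_le.2 hb)

theorem oddL_add (p : ℕ → St) (t : ℕ) : ∀ s, oddL p (t + s) =
    oddL p t ++ oddL (fun k => p (t + k)) s := by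
  intro s
  induction s with
  | zero =>
    have h : oddL (fun k => p (t + k)) 0 = [] := rfl
    rw [h, List.append_nil]
    rfl
  | succ s ih =>
    rw [← add_assoc, oddL_succ p (t + s), oddL_succ (fun k => p (t + k)) s, ih,
      List.append_assoc]

theorem place_re (σ : St) : |(σ.1.1 : ℝ)| ≤ ‖place σ‖ + 1 ∧ |(σ.1.2 : ℝ)| ≤ ‖place σ‖ + 1 := by
  have h1 := Complex.abs_re_le_norm (place σ)
  have h2 := Complex.abs_im_le_norm (place σ)
  have h3 : |(place σ).re - σ.1.1| ≤ 1 ∧ |(place σ).im - σ.1.2| ≤ 1 := by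
    obtain ⟨⟨x, y⟩, c⟩ := σ
    cases c <;> simp [place] <;> norm_num
  constructor
  · calc |(σ.1.1 : ℝ)| = |(place σ).re - ((place σ).re - σ.1.1)| := by ring_nf
      _ ≤ |(place σ).re| + |(place σ).re - σ.1.1| := abs_sub _ _
      _ ≤ _ := by linarith [h3.1]
  · calc |(σ.1.2 : ℝ)| = |(place σ).im - ((place σ).im - σ.1.2)| := by ring_nf
      _ ≤ |(place σ).im| + |(place σ).im - σ.1.2| := abs_sub _ _
      _ ≤ _ := by linarith [h3.2]

/-- the path leaves every ball, within a bounded time -/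
theorem ex_exit (R : ℝ) : ∃ K : ℕ, ∀ ω : Conf, ∃ k ≤ K, R ≤ ‖place (path ω k)‖ := by
  obtain ⟨Q, hQ⟩ : ∃ Q : ℕ, R + 1 ≤ Q := exists_nat_ge _
  obtain ⟨Z, hZ⟩ : ∃ Z : Finset St, Z = ((Finset.Icc (-(Q : ℤ)) Q ×ˢ Finset.Icc (-(Q : ℤ)) Q) ×ˢ
    (Finset.univ : Finset Q4)) := ⟨_, rfl⟩
  refine ⟨Z.card, fun ω => ?_⟩
  by_contra hcon
  push Not at hcon
  have h1 : (range (Z.card + 1)).card ≤ Z.card := by
    refine card_le_card_of_injOn (fun k => path ω k) ?_ ?_
    · intro k hk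
      have hk' : k ≤ Z.card := by
        have : k < Z.card + 1 := by simpa using hk
        omega
      have h2 := hcon k hk'
      obtain ⟨h3, h4⟩ := place_re (path ω k)
      rw [mem_coe, hZ, mem_product, mem_product, mem_Icc, mem_Icc]
      have h5 : |(path ω k).1.1| ≤ (Q : ℤ) := by
        have : |((path ω k).1.1 : ℝ)| ≤ (Q : ℝ) := by linarith
        exact_mod_cast this
      have h6 : |(path ω k).1.2| ≤ (Q : ℤ) := by
        have : |((path ω k).1.2 : ℝ)| ≤ (Q : ℝ) := by linarith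
        exact_mod_cast this
      rw [abs_le] at h5 h6
      exact ⟨⟨h5, h6⟩, mem_univ _⟩
    · intro i _ j _ h
      by_contra hne
      exact path_inj ω hne h
  rw [card_range] at h1
  omega

end

end Pool.Agent.U198.HP
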