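import Pool.Agent.U198.HP.Test
import Pool.Agent.N929.EG.GC

/-!
# The future of the half-plane path: finite boxes
-/

set_option autoImplicit false
set_option linter.unusedVariables false

namespace Pool.Agent.U198.HP

open H974 Finset H342P H984P H984N H984H
open Pool.Agent.U198.FK (Fl mem_Fl Ev ev ev_even ev_end ev_of ev_iff)
open Pool.Agent.N929.EG
open scoped Classical

noncomputable section

/-- the states at odd vertices before time `t`, in their order -/
def oddL (p : ℕ → St) (t : ℕ) : List St :=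
  ((List.range t).map p).filter (fun σ => decide (Odd (σ.1.1 + σ.1.2)))

theorem oddL_succ (p : ℕ → St) (t : ℕ) : oddL p (t + 1) = oddL p t ++
    (if Odd ((p t).1.1 + (p t).1.2) then [p t] else []) := by
  unfold oddL
  rw [List.range_succ, List.map_append, List.filter_append, List.map_singleton]
  congr 1
  by_cases h : Odd ((p t).1.1 + (p t).1.2)
  · rw [if_pos h, List.filter_cons_of_pos (by simpa using h), List.filter_nil]
  · rw [if_neg h, List.filter_cons_of_neg (by simpa using h), List.filter_nil]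

theorem oddL_congr {p p' : ℕ → St} {t : ℕ} (h : ∀ j < t, p j = p' j) : oddL p t = oddL p' t := by
  unfold oddL
  congr 1
  refine List.map_congr_left (fun j hj => h j (by simpa using hj))

theorem oddL_tog {M : ℕ} {F : Finset Edg} {y : Vtx} {k : ℕ} (hy : Ts y)
    (T : Tog F y k) : ∀ t, k < t →
      oddL (pa (insert (be (pa F k)) F)) (t + 4) = oddL (pa F) t := by
  have hev : ∀ j, k < j → j ≤ k + 4 → ¬ Odd ((pa (insert (be (pa F k)) F) j).1.1 +
      (pa (insert (be (pa F k)) F) j).1.2) := by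
    intro j h1 h2
    rw [T.mid j h1 h2, Int.not_odd_iff_even]
    exact hy.1
  have h0 : ∀ i, oddL (pa (insert (be (pa F k)) F)) (k + 1 + i + 4) = oddL (pa F) (k + 1 + i) := by
    intro i
    induction i with
    | zero =>
      show oddL (pa (insert (be (pa F k)) F)) (k + 1 + 1 + 1 + 1 + 1) = oddL (pa F) (k + 1)
      rw [oddL_succ, if_neg (hev _ (by omega) (by omega)), List.append_nil,
        oddL_succ, if_neg (hev _ (by omega) (by omega)), List.append_nil,
        oddL_succ, if_neg (hev _ (by omega) (by omega)), List.append_nil,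
        oddL_succ, if_neg (hev _ (by omega) (by omega)), List.append_nil]
      exact oddL_congr (fun j hj => T.low j (by omega))
    | succ i ih =>
      have e1 : k + 1 + (i + 1) + 4 = (k + 1 + i + 4) + 1 := by ring
      have e2 : k + 1 + (i + 1) = (k + 1 + i) + 1 := by ring
      rw [e1, e2, oddL_succ (pa (insert (be (pa F k)) F)) (k + 1 + i + 4),
        oddL_succ (pa F) (k + 1 + i), ih, T.high (k + 1 + i) (by omega)]
  intro t ht
  obtain ⟨i, rfl⟩ : ∃ i, t = k + 1 + i := ⟨t - (k + 1), by omega⟩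
  exact h0 i

variable {M : ℕ}

theorem odd_insert {F : Finset Edg} {y : Vtx} (hy : Ts y) (h : Gd M F y) (he : eg F y ∉ F)
    {t : ℕ} (ht : 720 * M ≤ t) : oddL (pa (insert (eg F y) F)) (t + 4) = oddL (pa F) t := by
  obtain ⟨k, hk⟩ := h
  rw [hk.eg] at he ⊢
  exact oddL_tog (M := M) hy (tog hy hk he) t (lt_of_lt_of_le hk.bd ht)

theorem gs_card (M m : ℕ) (F : Finset Edg) : (Gs M m F).card ≤ 720 * M := by
  rw [← card_range (720 * M)]
  have hex : ∀ y : Vtx, ∃ k, y ∈ Gs M m F → GA M F y k := by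
    intro y
    by_cases h : y ∈ Gs M m F
    · obtain ⟨k, hk⟩ := (mem_Fl.1 h).2
      exact ⟨k, fun _ => hk⟩
    · exact ⟨0, fun h' => absurd h' h⟩
  choose f hf using hex
  refine card_le_card_of_injOn f ?_ ?_
  · intro y hy
    exact mem_coe.2 (mem_range.2 (hf y (mem_coe.1 hy)).bd)
  · intro y hy y' hy' h
    have h1 := (hf y (mem_coe.1 hy)).1
    have h2 := (hf y' (mem_coe.1 hy')).1
    rw [h] at h1
    exact h1.symm.trans h2

theorem mem_Sl {α σ : Type} {Y : TS α σ} {L : Finset σ} {w : α} {q : σ} :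
    q ∈ Sl Y L w ↔ q ∈ L ∧ (q ∈ Y.S w ∨ q ∈ Y.B w) := by
  unfold Sl
  rw [mem_filter]

/-- the shift of the future -/
theorem fl_shift_gen {σ : Type} {Y : TS (Finset Edg) σ} {L : Finset σ}
    {st : Finset Edg → Finset Edg} {fl : Finset Edg → Finset σ → Finset Edg}
    (h : Fill Y L st fl) {J : ℕ} (hY : ∀ w q, q ∈ Y.S w → ∀ j, J ≤ j →
      pa (Y.ins w q) (j + 4) = pa w j ∧ oddL (pa (Y.ins w q)) (j + 4) = oddL (pa w) j)
    {w : Finset Edg} (hw : Em Y L w) : ∀ U : Finset σ, U ⊆ Sl Y L w → ∀ j, J ≤ j →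
      pa (fl w U) (j + 4 * U.card) = pa w j ∧
        oddL (pa (fl w U)) (j + 4 * U.card) = oddL (pa w) j := by
  intro U
  induction U using Finset.induction_on with
  | empty =>
    intro _ j hj
    rw [h.fl_empty w hw, card_empty]
    exact ⟨rfl, rfl⟩
  | insert q U hq ih =>
    intro hU j hj
    have h1 : U ⊆ Sl Y L w := fun x hx => hU (mem_insert_of_mem hx)
    have h2 : q ∈ Sl Y L w := hU (mem_insert_self q U)
    obtain ⟨h3, h4⟩ := h.fl_insert w U q hw h1 h2 hq
    obtain ⟨i1, i2⟩ := ih h1 j hj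
    obtain ⟨g1, g2⟩ := hY (fl w U) q h3 (j + 4 * U.card) (by omega)
    rw [card_insert_of_notMem hq, h4, show j + 4 * (U.card + 1) = (j + 4 * U.card) + 4 by ring,
      g1, g2]
    exact ⟨i1, i2⟩

theorem fl_shift {m : ℕ} {hm : 720 * M ≤ m} {L : Finset Vtx} {st : Finset Edg → Finset Edg}
    {fl : Finset Edg → Finset Vtx → Finset Edg} (h : Fill (TSh M m hm) L st fl) {w : Finset Edg}
    (hw : Em (TSh M m hm) L w) : ∀ U : Finset Vtx, U ⊆ Sl (TSh M m hm) L w → ∀ j, 720 * M ≤ j →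
      pa (fl w U) (j + 4 * U.card) = pa w j ∧
        oddL (pa (fl w U)) (j + 4 * U.card) = oddL (pa w) j := by
  refine fl_shift_gen h ?_ hw
  intro F q hq j hj
  have h5 : q ∈ Fl (Yb m) (fun y => Gd M F y ∧ eg F y ∉ F) := hq
  obtain ⟨h6, h7, h8⟩ := mem_Fl.1 h5
  have hy := (mem_Yb.1 h6).2
  obtain ⟨g1, g2, g3⟩ := gd_insert hy h7 h8
  exact ⟨g3 j hj, odd_insert hy h7 h8 hj⟩

theorem all_eq {m : ℕ} (hm : 720 * M ≤ m) :
    All (TSh M m hm) (Yb m).card = (bx m).edges.powerset := by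
  ext F
  rw [mem_All]
  constructor
  · rintro ⟨h2, _⟩
    have h3 : F ∈ Fl (bx m).edges.powerset (fun F' => (Bf M m F').card = (Bf M m F).card) := h2
    exact (mem_Fl.1 h3).1
  · intro h2
    refine ⟨?_, ?_⟩
    · show F ∈ Fl (bx m).edges.powerset (fun F' => (Bf M m F').card = (Bf M m F).card)
      exact mem_Fl.2 ⟨h2, rfl⟩
    · show (Bf M m F).card ≤ (Yb m).card
      exact card_le_card (fun y hy => (mem_Fl.1 hy).1)

theorem sl_sub {m : ℕ} {hm : 720 * M ≤ m} {L : Finset Vtx} (F : Finset Edg) :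
    Sl (TSh M m hm) L F ⊆ Gs M m F := by
  intro y hy
  obtain ⟨_, h⟩ := mem_Sl.1 hy
  rcases h with h | h
  · have h1 : y ∈ Fl (Yb m) (fun y => Gd M F y ∧ eg F y ∉ F) := h
    obtain ⟨h2, h3, _⟩ := mem_Fl.1 h1
    exact mem_Fl.2 ⟨h2, h3⟩
  · have h1 : y ∈ Fl (Yb m) (fun y => Gd M F y ∧ eg F y ∈ F) := h
    obtain ⟨h2, h3, _⟩ := mem_Fl.1 h1
    exact mem_Fl.2 ⟨h2, h3⟩

theorem sl_eq {m : ℕ} {hm : 720 * M ≤ m} (F : Finset Edg) :
    Sl (TSh M m hm) (Yb m) F = Gs M m F := by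
  refine Subset.antisymm (sl_sub F) ?_
  intro y hy
  obtain ⟨h1, h2⟩ := mem_Fl.1 hy
  refine mem_Sl.2 ⟨h1, ?_⟩
  by_cases h3 : eg F y ∈ F
  · exact Or.inr (mem_Fl.2 ⟨h1, h2, h3⟩)
  · exact Or.inl (mem_Fl.2 ⟨h1, h2, h3⟩)

theorem sum_compl {α : Type} (s : Finset α) (f : ℕ → ℝ) :
    ∑ U ∈ s.powerset, f (s.card - U.card) = ∑ U ∈ s.powerset, f U.card := by
  refine sum_nbij' (fun U => s \ U) (fun U => s \ U) ?_ ?_ ?_ ?_ ?_
  · intro U _
    exact mem_powerset.2 sdiff_subset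
  · intro U _
    exact mem_powerset.2 sdiff_subset
  · intro U hU
    exact Finset.sdiff_sdiff_eq_self (mem_powerset.1 hU)
  · intro U hU
    exact Finset.sdiff_sdiff_eq_self (mem_powerset.1 hU)
  · intro U hU
    rw [card_sdiff_of_subset (mem_powerset.1 hU)]

/-- **the future in a finite box** -/
theorem fin_bound (r : ℕ) : ∃ C : ℝ, 0 < C ∧ ∀ M m n : ℕ, 720 * M ≤ m → 3600 * M ≤ n →
    ∀ Φ : List St → (ℕ → St) → ℝ, (∀ a b, |Φ a b| ≤ 1) →
    |∑ F ∈ (bx m).edges.powerset,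
      Seq.D 4 r (fun t => Φ (oddL (pa F) t) (fun k => pa F (t + k))) n| ≤
      C * 2 ^ (bx m).edges.card / Real.sqrt (M + 1) ^ r := by
  obtain ⟨C, hC, h'⟩ := Ab_all (c := 2) (by norm_num) r
  obtain ⟨C', hC', hmany⟩ := many r
  refine ⟨C * C', by positivity, ?_⟩
  intro M m n hm hn Φ hΦ
  have hone := h' 1 one_pos (by rw [Real.sqrt_one]; norm_num)
  obtain ⟨st, fl, hfl⟩ := s_bij (Finset Edg) Vtx (TSh M m hm) (Yb m) (by
    intro q _ q' _ hne h
    exact hne h)
  have hN : ∀ n, (Yb m).card < n → (TSh M m hm).K n = ∅ := by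
    intro n hn
    rw [← Finset.not_nonempty_iff_eq_empty]
    rintro ⟨F, hF⟩
    have hF' : F ∈ Fl (bx m).edges.powerset (fun F => (Bf M m F).card = n) := hF
    obtain ⟨h2, h3⟩ := mem_Fl.1 hF'
    have : (Bf M m F).card ≤ (Yb m).card := card_le_card (fun y hy => (mem_Fl.1 hy).1)
    omega
  rw [← all_eq hm, class_sum hfl hN]
  have hmany' : ∑ F ∈ (bx m).edges.powerset, 1 / Real.sqrt ((Gs M m F).card + 1) ^ r ≤
      C' * 2 ^ (bx m).edges.card / Real.sqrt (M + 1) ^ r := hmany M m hm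
  rw [← all_eq hm, class_sum hfl hN, all_eq hm] at hmany'
  rw [all_eq hm]
  have hterm : ∀ w ∈ (bx m).edges.powerset.filter (Em (TSh M m hm) (Yb m)),
      |∑ U ∈ (Sl (TSh M m hm) (Yb m) w).powerset,
        Seq.D 4 r (fun t => Φ (oddL (pa (fl w U)) t) (fun k => pa (fl w U) (t + k))) n| ≤
      C * ∑ U ∈ (Sl (TSh M m hm) (Yb m) w).powerset,
        1 / Real.sqrt ((Gs M m (fl w U)).card + 1) ^ r := by
    intro w hw
    obtain ⟨_, hEm⟩ := mem_filter.1 hw
    obtain ⟨S, hS⟩ : ∃ S, S = (Sl (TSh M m hm) (Yb m) w).card := ⟨_, rfl⟩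
    have hSM : S ≤ 720 * M := by
      rw [hS, sl_eq]
      exact gs_card M m w
    obtain ⟨H, hH⟩ : ∃ H : ℕ → ℝ, H = fun a => Φ (oddL (pa w) (n - 4 * S + 4 * a))
      (fun k => pa w (n - 4 * S + 4 * a + k)) := ⟨_, rfl⟩
    have e1 : ∀ U ∈ (Sl (TSh M m hm) (Yb m) w).powerset,
        Seq.D 4 r (fun t => Φ (oddL (pa (fl w U)) t) (fun k => pa (fl w U) (t + k))) n =
        Seq.D 1 r H ((Sl (TSh M m hm) (Yb m) w).card - U.card) := by
      intro U hU
      have hU' := mem_powerset.1 hU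
      have hUc : U.card ≤ S := by rw [hS]; exact card_le_card hU'
      have hsh := fl_shift hfl hEm U hU'
      rw [← hS]
      unfold Seq.D
      refine sum_congr rfl fun i hi => ?_
      congr 1
      rw [hH]
      show Φ (oddL (pa (fl w U)) (n + 4 * i)) (fun k => pa (fl w U) (n + 4 * i + k)) =
        Φ (oddL (pa w) (n - 4 * S + 4 * (S - U.card + 1 * i)))
          (fun k => pa w (n - 4 * S + 4 * (S - U.card + 1 * i) + k))
      have e2 : n + 4 * i = (n - 4 * S + 4 * (S - U.card + 1 * i)) + 4 * U.card := by omega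
      have e3 : 720 * M ≤ n - 4 * S + 4 * (S - U.card + 1 * i) := by omega
      have e4 : oddL (pa (fl w U)) (n + 4 * i) =
          oddL (pa w) (n - 4 * S + 4 * (S - U.card + 1 * i)) := by
        rw [e2]
        exact (hsh _ e3).2
      have e5 : (fun k => pa (fl w U) (n + 4 * i + k)) =
          (fun k => pa w (n - 4 * S + 4 * (S - U.card + 1 * i) + k)) := by
        funext k
        have e6 : n + 4 * i + k = (n - 4 * S + 4 * (S - U.card + 1 * i) + k) + 4 * U.card := by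
          omega
        rw [e6]
        exact (hsh _ (by omega)).1
      rw [e4, e5]
    rw [sum_congr rfl e1, sum_compl (Sl (TSh M m hm) (Yb m) w) (fun a => Seq.D 1 r H a)]
    have e7 : ∑ U ∈ (Sl (TSh M m hm) (Yb m) w).powerset, Seq.D 1 r H U.card =
        Pool.Agent.N929.EG.Ab 1 S (Seq.D 1 r H) 0 := by
      rw [sum_powerset_apply_card (fun j => Seq.D 1 r H j)]
      unfold Pool.Agent.N929.EG.Ab
      rw [hS]
      refine sum_congr rfl fun j _ => ?_
      rw [nsmul_eq_mul, one_pow, mul_one, zero_add]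
    rw [e7]
    have e8 := hone S H 1 (fun a => by rw [hH]; exact hΦ _ _) 0
    refine e8.trans (le_of_eq ?_)
    have e9 : ∀ U ∈ (Sl (TSh M m hm) (Yb m) w).powerset,
        1 / Real.sqrt ((Gs M m (fl w U)).card + 1) ^ r = 1 / Real.sqrt (S + 1) ^ r := by
      intro U hU
      rw [← sl_eq (hm := hm), hfl.fl_sl w U hEm (mem_powerset.1 hU), hS]
    rw [sum_congr rfl e9, sum_const, card_powerset, ← hS, nsmul_eq_mul]
    push_cast
    norm_num
    ring
  calc |∑ w ∈ (bx m).edges.powerset.filter (Em (TSh M m hm) (Yb m)),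
        ∑ U ∈ (Sl (TSh M m hm) (Yb m) w).powerset,
        Seq.D 4 r (fun t => Φ (oddL (pa (fl w U)) t) (fun k => pa (fl w U) (t + k))) n|
      ≤ ∑ w ∈ (bx m).edges.powerset.filter (Em (TSh M m hm) (Yb m)),
        |∑ U ∈ (Sl (TSh M m hm) (Yb m) w).powerset,
        Seq.D 4 r (fun t => Φ (oddL (pa (fl w U)) t) (fun k => pa (fl w U) (t + k))) n| :=
        abs_sum_le_sum_abs _ _
    _ ≤ ∑ w ∈ (bx m).edges.powerset.filter (Em (TSh M m hm) (Yb m)),
        C * ∑ U ∈ (Sl (TSh M m hm) (Yb m) w).powerset,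
        1 / Real.sqrt ((Gs M m (fl w U)).card + 1) ^ r := sum_le_sum hterm
    _ ≤ C * (C' * 2 ^ (bx m).edges.card / Real.sqrt (M + 1) ^ r) := by
        rw [← mul_sum]
        exact mul_le_mul_of_nonneg_left hmany' hC.le
    _ = _ := by ring

end

end Pool.Agent.U198.HP
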