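import Pool.Agent.U198.HP.Base

/-!
# Pendant edges on the half-plane exploration path
-/

set_option autoImplicit false
set_option linter.unusedVariables false

namespace Pool.Agent.U198.HP

open H974 Finset H342P H984P H984N H984H
open Pool.Agent.U198.FK (Fl mem_Fl Ev ev ev_even ev_end ev_of ev_iff star star_card mem_star)
open scoped Classical

noncomputable section

theorem vt_mono {F : Finset Edg} {s t : ℕ} (h : s ≤ t) : Vt F s ⊆ Vt F t := by
  intro y hy
  obtain ⟨⟨j, hj, hj'⟩, h2⟩ := mem_Vt.1 hy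
  exact mem_Vt.2 ⟨⟨j, by omega, hj'⟩, h2⟩

/-- a vertex is reached through an open edge -/
theorem arrive {F : Finset Edg} {y : Vtx} (hy : Ts y) :
    ∀ j, (pa F j).1 = y → ∃ i < j, be (pa F i) ∈ Op F ∧
      (src (be (pa F i)) = y ∨ tgt (be (pa F i)) = y) := by
  intro j
  induction j with
  | zero =>
    intro h
    rw [pa_zero] at h
    have h2 := hy.2
    rw [← h] at h2
    exact absurd h2 (by norm_num)
  | succ j ih =>
    intro h
    rw [pa_succ] at h
    by_cases h1 : be (pa F j) ∈ Op F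
    · rw [step_open h1] at h
      refine ⟨j, Nat.lt_succ_self j, h1, ?_⟩
      rcases b_ends (pa F j) with ⟨_, h2⟩ | ⟨h2, _⟩
      · exact Or.inr (h2.trans h)
      · exact Or.inl (h2.trans h)
    · rw [step_closed h1, bt_fst] at h
      obtain ⟨i, hi, h2⟩ := ih h
      exact ⟨i, by omega, h2⟩

/-- `k` is the first time at which an edge of `y` is examined, the other edges of `y` are closed,
and fewer than `M` tested vertices come before `y` -/
def GA (M : ℕ) (F : Finset Edg) (y : Vtx) (k : ℕ) : Prop :=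
  ye F k = y ∧ (∀ j < k, ye F j ≠ y) ∧ (∀ e ∈ F, ev e = y → e = be (pa F k)) ∧ (Vt F k).card < M

/-- there is a slot at `y` -/
def Gd (M : ℕ) (F : Finset Edg) (y : Vtx) : Prop := ∃ k, GA M F y k

/-- the edge of the slot at `y` -/
def eg (F : Finset Edg) (y : Vtx) : Edg := be (pa F (sInf {k | ye F k = y}))

variable {M : ℕ}

theorem GA.eg {F : Finset Edg} {y : Vtx} {k : ℕ} (h : GA M F y k) : HP.eg F y = be (pa F k) := by
  unfold HP.eg
  have h1 : sInf {k | ye F k = y} = k := by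
    apply le_antisymm
    · exact Nat.sInf_le h.1
    · by_contra h2
      push Not at h2
      exact h.2.1 _ h2 (Nat.sInf_mem (s := {k | ye F k = y}) ⟨k, h.1⟩)
  rw [h1]

theorem GA.bd {F : Finset Edg} {y : Vtx} {k : ℕ} (h : GA M F y k) : k < 720 * M := by
  by_contra h1
  push Not at h1
  have h2 := vt_ge F (120 * M)
  have h3 := card_le_card (vt_mono (F := F) (show 6 * (120 * M) ≤ k by omega))
  have h4 := h.2.2.2
  omega

theorem GA.ne {F : Finset Edg} {y : Vtx} {k : ℕ} (hy : Ts y) (h : GA M F y k) :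
    (pa F k).1 ≠ y := by
  intro h1
  obtain ⟨i, hi, _, h2⟩ := arrive hy k h1
  exact h.2.1 i hi (ev_of hy.1 h2)

theorem GA.bm {F : Finset Edg} {y : Vtx} {k : ℕ} (hy : Ts y) (h : GA M F y k) :
    (HP.bm (pa F k)).1 = y := by
  have h1 := h.ne hy
  have h2 : src (be (pa F k)) = y ∨ tgt (be (pa F k)) = y := (ev_iff hy.1).1 h.1
  rcases b_ends (pa F k) with ⟨h3, h4⟩ | ⟨h3, h4⟩
  · rcases h2 with h2 | h2
    · exact absurd (h3.symm.trans h2) h1
    · exact h4.symm.trans h2
  · rcases h2 with h2 | h2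
    · exact h3.symm.trans h2
    · exact absurd (h4.symm.trans h2) h1

theorem GA.rn {F : Finset Edg} {y : Vtx} {k : ℕ} (hy : Ts y) (h : GA M F y k) :
    Rn (be (pa F k)) := ts_rn hy ((ev_iff hy.1).1 h.1)

theorem GA.iso {F : Finset Edg} {y : Vtx} {k : ℕ} (hy : Ts y)
    (h : GA M F y k) (he : be (pa F k) ∉ F) : ∀ e ∈ Op F, src e ≠ y ∧ tgt e ≠ y := by
  intro e h1
  rw [← not_or]
  intro h2
  have h3 := (ts_op hy h2 F).1 h1
  have h4 := h.2.2.1 e h3 (ev_of hy.1 h2)
  rw [h4] at h3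
  exact he h3

/-- the path only depends on the edges at the even vertices of the examined edges -/
theorem pa_agree {F F' : Finset Edg} {k : ℕ}
    (h : ∀ j < k, (be (pa F j) ∈ F ↔ be (pa F j) ∈ F')) :
    ∀ j, j ≤ k → pa F' j = pa F j := by
  intro j
  induction j with
  | zero => intro _; rw [pa_zero, pa_zero]
  | succ j ih =>
    intro hj
    have ih' := ih (by omega)
    rw [pa_succ, pa_succ, ih']
    have h3 : be (pa F j) ∈ Op F ↔ be (pa F j) ∈ Op F' := by
      rw [mem_Op, mem_Op, h j (by omega)]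
    by_cases h4 : be (pa F j) ∈ Op F
    · rw [step_open h4, step_open (h3.1 h4)]
    · rw [step_closed h4, step_closed (fun h => h4 (h3.2 h))]

structure Tog (F : Finset Edg) (y : Vtx) (k : ℕ) : Prop where
  low : ∀ j, j ≤ k → pa (insert (be (pa F k)) F) j = pa F j
  mid : ∀ j, k < j → j ≤ k + 4 → (pa (insert (be (pa F k)) F) j).1 = y
  high : ∀ j, k < j → pa (insert (be (pa F k)) F) (j + 4) = pa F j

theorem tog {F : Finset Edg} {y : Vtx} {k : ℕ}
    (hy : Ts y) (h : GA M F y k) (he : be (pa F k) ∉ F) : Tog F y k := by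
  obtain ⟨σ, hσ⟩ : ∃ σ, σ = pa F k := ⟨_, rfl⟩
  obtain ⟨e, hedef⟩ : ∃ e, e = be σ := ⟨_, rfl⟩
  obtain ⟨F', hF'def⟩ : ∃ F', F' = insert e F := ⟨_, rfl⟩
  have hyE := hy.1
  have hiso := h.iso hy he
  have hmv : (HP.bm σ).1 = y := by rw [hσ]; exact h.bm hy
  have hne : σ.1 ≠ y := by rw [hσ]; exact h.ne hy
  have hev : ev e = y := by rw [hedef, hσ]; exact h.1
  have heF : e ∉ F := by rw [hedef, hσ]; exact he
  have hrn : Rn e := by rw [hedef, hσ]; exact h.rn hy
  have hcfg : Op F' = insert e (Op F) := by rw [hF'def, Op_insert hrn]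
  -- never at `y`
  have hnot : ∀ j, (pa F j).1 ≠ y := by
    intro j hj
    obtain ⟨i, _, h1, h2⟩ := arrive hy j hj
    obtain ⟨h3, h4⟩ := hiso _ h1
    exact h2.elim h3 h4
  have hlow : ∀ j, j ≤ k → pa F' j = pa F j := by
    refine pa_agree (fun j hj => ?_)
    rw [hF'def, mem_insert]
    have h1 : be (pa F j) ≠ e := by
      intro h2
      refine h.2.1 j hj ?_
      unfold ye
      rw [h2]
      exact hev
    exact ⟨fun h2 => Or.inr h2, fun h2 => h2.resolve_left h1⟩
  -- the excursion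
  obtain ⟨l1, l2, l3, l4, l5⟩ := b_loop σ
  have hclosed : ∀ τ : St, τ.1 = y → be τ ≠ e → be τ ∉ Op F' := by
    intro τ h1 h2 h3
    rw [hcfg] at h3
    rcases h3 with h3 | h3
    · exact h2 h3
    · obtain ⟨h4, h5⟩ := hiso _ h3
      rcases b_ends τ with ⟨h6, _⟩ | ⟨_, h6⟩
      · exact h4 (h6.trans h1)
      · exact h5 (h6.trans h1)
  have heC : e ∈ Op F' := by rw [hcfg]; exact Or.inl rfl
  have w1 : pa F' (k + 1) = HP.bm σ := by
    rw [pa_succ, hlow k le_rfl, ← hσ, step_open (by rw [← hedef]; exact heC)]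
  have w2 : pa F' (k + 2) = bt (HP.bm σ) := by
    rw [pa_succ, w1, step_closed]
    refine hclosed _ hmv ?_
    rw [hedef]
    exact l1
  have w3 : pa F' (k + 3) = bt (bt (HP.bm σ)) := by
    rw [pa_succ, w2, step_closed]
    refine hclosed _ (by rw [bt_fst]; exact hmv) ?_
    rw [hedef]
    exact l2
  have w4 : pa F' (k + 4) = bt (bt (bt (HP.bm σ))) := by
    rw [pa_succ, w3, step_closed]
    refine hclosed _ (by rw [bt_fst, bt_fst]; exact hmv) ?_
    rw [hedef]
    exact l3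
  have w5 : pa F' (k + 5) = bt σ := by
    rw [pa_succ, w4, step_open, l5]
    rw [l4, ← hedef]
    exact heC
  have hmid : ∀ j, k < j → j ≤ k + 4 → (pa F' j).1 = y := by
    intro j h1 h2
    obtain ⟨i, rfl⟩ : ∃ i, j = k + i := ⟨j - k, by omega⟩
    have h3 : i = 1 ∨ i = 2 ∨ i = 3 ∨ i = 4 := by omega
    rcases h3 with rfl | rfl | rfl | rfl
    · rw [w1]; exact hmv
    · rw [w2, bt_fst]; exact hmv
    · rw [w3, bt_fst, bt_fst]; exact hmv
    · rw [w4, bt_fst, bt_fst, bt_fst]; exact hmv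
  have hhigh : ∀ i, pa F' (k + 1 + i + 4) = pa F (k + 1 + i) := by
    intro i
    induction i with
    | zero =>
      show pa F' (k + 5) = pa F (k + 1)
      rw [w5, pa_succ, ← hσ, step_closed]
      intro h1
      rw [← hedef] at h1
      obtain ⟨h2, h3⟩ := hiso _ h1
      exact (((ev_iff hyE).1 hev).elim h2 h3)
    | succ i ih =>
      have e1 : k + 1 + (i + 1) + 4 = (k + 1 + i + 4) + 1 := by ring
      have e2 : k + 1 + (i + 1) = (k + 1 + i) + 1 := by ring
      rw [e1, e2, pa_succ F' (k + 1 + i + 4), pa_succ F (k + 1 + i), ih]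
      have h1 : be (pa F (k + 1 + i)) ≠ e := by
        intro h2
        have h3 : (pa F (k + 1 + i)).1 = σ.1 := by
          have h4 : src e = (pa F (k + 1 + i)).1 ∨ tgt e = (pa F (k + 1 + i)).1 := by
            rw [← h2]
            rcases b_ends (pa F (k + 1 + i)) with ⟨h5, _⟩ | ⟨_, h5⟩
            · exact Or.inl h5
            · exact Or.inr h5
          have h6 := hnot (k + 1 + i)
          rcases b_ends σ with ⟨h7, h8⟩ | ⟨h7, h8⟩
          · rw [← hedef] at h7 h8
            rw [hmv] at h8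
            rcases h4 with h4 | h4
            · exact h4.symm.trans h7
            · exact absurd (h4.symm.trans h8) h6
          · rw [← hedef] at h7 h8
            rw [hmv] at h7
            rcases h4 with h4 | h4
            · exact absurd (h4.symm.trans h7) h6
            · exact h4.symm.trans h8
        have h4 := be_inj h3 (h2.trans hedef)
        rw [hσ] at h4
        exact pa_inj F (show k ≠ k + 1 + i by omega) h4.symm
      by_cases h2 : be (pa F (k + 1 + i)) ∈ Op F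
      · rw [step_open h2, step_open]
        rw [hcfg]
        exact Or.inr h2
      · rw [step_closed h2, step_closed]
        rw [hcfg]
        intro h3
        rcases h3 with h3 | h3
        · exact h1 h3
        · exact h2 h3
  have hhigh' : ∀ j, k < j → pa F' (j + 4) = pa F j := by
    intro j h1
    obtain ⟨i, rfl⟩ : ∃ i, j = k + 1 + i := ⟨j - (k + 1), by omega⟩
    exact hhigh i
  rw [hedef, hσ] at hF'def
  rw [hF'def] at hlow hmid hhigh'
  exact ⟨hlow, hmid, hhigh'⟩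

/-- the index map -/
def sft (k j : ℕ) : ℕ := if j ≤ k then j else j + 4

theorem sft_lt {k i j : ℕ} (h : i < j) : sft k i < sft k j := by
  unfold sft
  split_ifs <;> omega

theorem Tog.idx {F : Finset Edg} {y : Vtx} {k : ℕ} (T : Tog F y k) (j : ℕ) :
    pa (insert (be (pa F k)) F) (sft k j) = pa F j := by
  unfold sft
  split_ifs with h
  · exact T.low j h
  · exact T.high j (by omega)

theorem Tog.inv {F : Finset Edg} {y : Vtx} {k : ℕ} (T : Tog F y k) (hy : Ts y) (m : ℕ) :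
    (∃ j, m = sft k j ∧ pa (insert (be (pa F k)) F) m = pa F j) ∨
      (k < m ∧ m ≤ k + 4 ∧ ye (insert (be (pa F k)) F) m = y) := by
  rcases Nat.lt_or_ge k m with h1 | h1
  · rcases Nat.lt_or_ge (k + 4) m with h2 | h2
    · left
      refine ⟨m - 4, ?_, ?_⟩
      · unfold sft
        rw [if_neg (by omega)]
        omega
      · have h3 := T.high (m - 4) (by omega)
        rw [show m - 4 + 4 = m by omega] at h3
        exact h3
    · right
      refine ⟨h1, h2, ?_⟩
      have h3 := T.mid m h1 h2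
      refine ev_of hy.1 ?_
      rcases b_ends (pa (insert (be (pa F k)) F) m) with ⟨h5, _⟩ | ⟨_, h5⟩
      · exact Or.inl (h5.trans h3)
      · exact Or.inr (h5.trans h3)
  · left
    refine ⟨m, ?_, T.low m h1⟩
    unfold sft
    rw [if_pos h1]

theorem Tog.vt {F : Finset Edg} {y : Vtx} {k : ℕ} (T : Tog F y k) (hy : Ts y)
    (hyk : ye F k = y) (j : ℕ) : Vt (insert (be (pa F k)) F) (sft k j) = Vt F j := by
  ext z
  rw [mem_Vt, mem_Vt]
  constructor
  · rintro ⟨⟨i, hi, hi'⟩, hz⟩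
    refine ⟨?_, hz⟩
    rcases T.inv hy i with ⟨i', h1, h2⟩ | ⟨h1, h2, h3⟩
    · refine ⟨i', ?_, ?_⟩
      · by_contra h4
        push Not at h4
        rcases Nat.lt_or_ge j i' with h5 | h5
        · have := sft_lt (k := k) h5
          omega
        · have h6 : j = i' := by omega
          rw [h1, h6] at hi
          exact lt_irrefl _ hi
      · rw [← hi']
        unfold ye
        rw [h2]
    · refine ⟨k, ?_, ?_⟩
      · unfold sft at hi
        split_ifs at hi <;> omega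
      · rw [hyk, ← hi', h3]
  · rintro ⟨⟨i, hi, hi'⟩, hz⟩
    refine ⟨⟨sft k i, sft_lt hi, ?_⟩, hz⟩
    rw [← hi']
    unfold ye
    rw [T.idx]

theorem tog_GA {F : Finset Edg} {y : Vtx} {k : ℕ}
    (hy : Ts y) (h : GA M F y k) (he : be (pa F k) ∉ F) :
    GA M (insert (be (pa F k)) F) y k ∧ pa (insert (be (pa F k)) F) k = pa F k := by
  have T := tog hy h he
  have hk := T.low k le_rfl
  refine ⟨⟨?_, ?_, ?_, ?_⟩, hk⟩
  · unfold ye
    rw [hk]
    exact h.1
  · intro j hj
    unfold ye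
    rw [T.low j hj.le]
    exact h.2.1 j hj
  · intro e h1 h2
    rw [hk]
    rcases mem_insert.1 h1 with h1 | h1
    · exact h1
    · exact h.2.2.1 e h1 h2
  · have h1 := T.vt hy h.1 k
    have h2 : sft k k = k := by
      unfold sft
      rw [if_pos le_rfl]
    rw [h2] at h1
    rw [h1]
    exact h.2.2.2

theorem tog_up {F : Finset Edg} {y : Vtx} {k : ℕ}
    (hy : Ts y) (h : GA M F y k) (he : be (pa F k) ∉ F) {y' : Vtx} (hne : y' ≠ y)
    {k' : ℕ} (h' : GA M F y' k') :
    GA M (insert (be (pa F k)) F) y' (sft k k') ∧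
      pa (insert (be (pa F k)) F) (sft k k') = pa F k' := by
  have T := tog hy h he
  have hk := T.idx k'
  refine ⟨⟨?_, ?_, ?_, ?_⟩, hk⟩
  · unfold ye
    rw [hk]
    exact h'.1
  · intro j hj h4
    rcases T.inv hy j with ⟨i', h1, h2⟩ | ⟨h1, h2, h3⟩
    · refine h'.2.1 i' ?_ ?_
      · by_contra h4
        push Not at h4
        rcases Nat.lt_or_ge k' i' with h5 | h5
        · have := sft_lt (k := k) h5
          omega
        · have h6 : k' = i' := by omega
          rw [h1, h6] at hj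
          exact lt_irrefl _ hj
      · rw [← h4]
        unfold ye
        rw [h2]
    · exact hne (h4.symm.trans h3)
  · intro e h1 h2
    rw [hk]
    rcases mem_insert.1 h1 with h1 | h1
    · exfalso
      apply hne
      rw [← h2, h1]
      exact h.1
    · exact h'.2.2.1 e h1 h2
  · rw [T.vt hy h.1 k']
    exact h'.2.2.2

theorem tog_down {F : Finset Edg} {y : Vtx} {k : ℕ}
    (hy : Ts y) (h : GA M F y k) (he : be (pa F k) ∉ F) {y' : Vtx} (hne : y' ≠ y)
    {m : ℕ} (h' : GA M (insert (be (pa F k)) F) y' m) : ∃ k', GA M F y' k' := by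
  have T := tog hy h he
  rcases T.inv hy m with ⟨k', hk', hw⟩ | ⟨h1, h2, h3⟩
  · refine ⟨k', ?_, ?_, ?_, ?_⟩
    · unfold ye
      rw [← hw]
      exact h'.1
    · intro j hj h1
      refine h'.2.1 (sft k j) ?_ ?_
      · rw [hk']
        exact sft_lt hj
      · unfold ye
        rw [T.idx]
        exact h1
    · intro e h1 h2
      rw [← hw]
      exact h'.2.2.1 e (mem_insert_of_mem h1) h2
    · rw [← T.vt hy h.1 k', ← hk']
      exact h'.2.2.2
  · exact absurd (h'.1.symm.trans h3) hne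

/-- occupying a free slot -/
theorem gd_insert {F : Finset Edg} {y : Vtx} (hy : Ts y) (h : Gd M F y) (he : eg F y ∉ F) :
    (∀ y', Gd M (insert (eg F y) F) y' ↔ Gd M F y') ∧
      (∀ y', Gd M F y' → eg (insert (eg F y) F) y' = eg F y') ∧
      ∀ j, 720 * M ≤ j → pa (insert (eg F y) F) (j + 4) = pa F j := by
  obtain ⟨k, hk⟩ := h
  rw [hk.eg] at he ⊢
  have T := tog hy hk he
  refine ⟨fun y' => ?_, fun y' h' => ?_, fun j hj => ?_⟩
  · by_cases hne : y' = y
    · subst hne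
      exact ⟨fun _ => ⟨k, hk⟩, fun _ => ⟨k, (tog_GA hy hk he).1⟩⟩
    · constructor
      · rintro ⟨m, hm⟩
        exact tog_down hy hk he hne hm
      · rintro ⟨k', hk'⟩
        exact ⟨_, (tog_up hy hk he hne hk').1⟩
  · by_cases hne : y' = y
    · subst hne
      obtain ⟨h1, h2⟩ := tog_GA hy hk he
      rw [h1.eg, hk.eg, h2]
    · obtain ⟨k', hk'⟩ := h'
      obtain ⟨h1, h2⟩ := tog_up hy hk he hne hk'
      rw [h1.eg, hk'.eg, h2]
  · exact T.high j (lt_of_lt_of_le hk.bd hj)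

/-- freeing a slot -/
theorem gd_erase {F : Finset Edg} {y : Vtx} (hy : Ts y) (h : Gd M F y) :
    Gd M (F.erase (eg F y)) y ∧ eg (F.erase (eg F y)) y = eg F y := by
  obtain ⟨k, hk⟩ := h
  obtain ⟨e, he⟩ : ∃ e, e = eg F y := ⟨_, rfl⟩
  rw [← he]
  have hek : e = be (pa F k) := by rw [he, hk.eg]
  have hw : ∀ j, j ≤ k → pa (F.erase e) j = pa F j := by
    refine pa_agree (fun j hj => ?_)
    rw [mem_erase]
    have h1 : be (pa F j) ≠ e := by
      intro h2
      refine hk.2.1 j hj ?_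
      unfold ye
      rw [h2, hek]
      exact hk.1
    exact ⟨fun h2 => ⟨h1, h2⟩, fun h2 => h2.2⟩
  have hGA : GA M (F.erase e) y k := by
    refine ⟨?_, ?_, ?_, ?_⟩
    · unfold ye
      rw [hw k le_rfl]
      exact hk.1
    · intro j hj
      unfold ye
      rw [hw j hj.le]
      exact hk.2.1 j hj
    · intro e' h1 h2
      rw [hw k le_rfl]
      exact hk.2.2.1 e' (mem_of_mem_erase h1) h2
    · have h1 : Vt (F.erase e) k = Vt F k := by
        ext z
        rw [mem_Vt, mem_Vt]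
        constructor
        · rintro ⟨⟨i, hi, hi'⟩, hz⟩
          refine ⟨⟨i, hi, ?_⟩, hz⟩
          rw [← hi']
          unfold ye
          rw [hw i hi.le]
        · rintro ⟨⟨i, hi, hi'⟩, hz⟩
          refine ⟨⟨i, hi, ?_⟩, hz⟩
          rw [← hi']
          unfold ye
          rw [hw i hi.le]
      rw [h1]
      exact hk.2.2.2
  refine ⟨⟨k, hGA⟩, ?_⟩
  rw [hGA.eg, hw k le_rfl, ← hek]

theorem pa_near (F : Finset Edg) (k : ℕ) : |(pa F k).1.1| ≤ k ∧ |(pa F k).1.2| ≤ k := by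
  have h := path_sd (cf F) (Nat.zero_le k)
  have h0 : (path (cf F) 0).1 = (0, 0) := rfl
  rw [h0, Nat.sub_zero] at h
  unfold H984H.sd at h
  have h1 := (le_max_left _ _).trans h
  have h2 := (le_max_right _ _).trans h
  simp only [zero_sub, abs_neg] at h1 h2
  exact ⟨h1, h2⟩

/-- the vertices of the box -/
def Yb (m : ℕ) : Finset Vtx :=
  Fl (Finset.Icc (-(m : ℤ)) m ×ˢ Finset.Icc (0 : ℤ) m) Ts

theorem mem_Yb {m : ℕ} {y : Vtx} : y ∈ Yb m ↔ inR (-(m : ℤ)) m 0 m y ∧ Ts y := by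
  unfold Yb
  rw [mem_Fl, mem_product, mem_Icc, mem_Icc]
  rfl

theorem bx_mem {m : ℕ} {e : Edg} (h1 : inR (-(m : ℤ)) m 0 m (src e))
    (h2 : inR (-(m : ℤ)) m 0 m (tgt e)) : e ∈ (bx m).edges := by
  obtain ⟨x, y, b⟩ := e
  show _ ∈ RE (-(m : ℤ)) m 0 m
  cases b
  · simp only [src_mk, tgt_false, inR] at h1 h2
    rw [mem_RE_false]
    omega
  · simp only [src_mk, tgt_true, inR] at h1 h2
    rw [mem_RE_true]
    omega

theorem GA.mem {F : Finset Edg} {y : Vtx} {k m : ℕ} (hm : 720 * M ≤ m) (hy : Ts y)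
    (h : GA M F y k) : be (pa F k) ∈ (bx m).edges ∧ y ∈ Yb m := by
  have h1 := h.bd
  obtain ⟨h2, h3⟩ := pa_near F k
  have h4 := pa_nonneg F k
  have h5 := h.bm hy
  obtain ⟨σ, hσ⟩ : ∃ σ, σ = pa F k := ⟨_, rfl⟩
  rw [← hσ] at h2 h3 h4 h5 ⊢
  rw [abs_le] at h2 h3
  have hkm : (k : ℤ) + 1 ≤ m := by omega
  have hv : inR (-(m : ℤ)) m 0 m σ.1 := ⟨⟨by omega, by omega⟩, by omega, by omega⟩
  have hyR : inR (-(m : ℤ)) m 0 m y := by
    have h6 := hy.2
    rw [← h5] at h6 ⊢
    obtain ⟨⟨x, z⟩, c⟩ := σ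
    simp only at h2 h3 h4
    cases c
    · simp only [bm_ne] at h6 ⊢
      exact ⟨⟨by simp only; omega, by simp only; omega⟩, by simp only; omega, by simp only; omega⟩
    · simp only [bm_nw] at h6 ⊢
      exact ⟨⟨by simp only; omega, by simp only; omega⟩, by simp only; omega, by simp only; omega⟩
    · simp only [bm_sw] at h6 ⊢
      exact ⟨⟨by simp only; omega, by simp only; omega⟩, by simp only; omega, by simp only; omega⟩
    · simp only [bm_se] at h6 ⊢
      exact ⟨⟨by simp only; omega, by simp only; omega⟩, by simp only; omega, by simp only; omega⟩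
  refine ⟨?_, mem_Yb.2 ⟨hyR, hy⟩⟩
  rcases b_ends σ with ⟨h6, h7⟩ | ⟨h6, h7⟩
  · refine bx_mem ?_ ?_
    · rw [h6]; exact hv
    · rw [h7, h5]; exact hyR
  · refine bx_mem ?_ ?_
    · rw [h6, h5]; exact hyR
    · rw [h7]; exact hv

/-- the occupied slots -/
def Bf (M m : ℕ) (F : Finset Edg) : Finset Vtx := Fl (Yb m) (fun y => Gd M F y ∧ eg F y ∈ F)

/-- all slots -/
def Gs (M m : ℕ) (F : Finset Edg) : Finset Vtx := Fl (Yb m) (fun y => Gd M F y)

theorem eg_inj {F : Finset Edg} {y y' : Vtx} (h : Gd M F y) (h' : Gd M F y')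
    (he : eg F y = eg F y') : y = y' := by
  obtain ⟨k, hk⟩ := h
  obtain ⟨k', hk'⟩ := h'
  rw [hk.eg, hk'.eg] at he
  rw [← hk.1, ← hk'.1]
  unfold ye
  rw [he]

theorem bf_insert {m : ℕ} {F : Finset Edg} {y : Vtx} (hy : y ∈ Yb m) (h : Gd M F y)
    (he : eg F y ∉ F) : Bf M m (insert (eg F y) F) = insert y (Bf M m F) ∧ y ∉ Bf M m F := by
  obtain ⟨g1, g2, g3⟩ := gd_insert (mem_Yb.1 hy).2 h he
  constructor
  · ext z
    unfold Bf
    rw [mem_Fl, mem_insert, mem_insert, mem_Fl]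
    constructor
    · rintro ⟨h1, h2, h3⟩
      have h4 := (g1 z).1 h2
      rw [g2 z h4] at h3
      rcases h3 with h5 | h5
      · exact Or.inl (eg_inj h4 h h5)
      · exact Or.inr ⟨h1, h4, h5⟩
    · rintro (h1 | ⟨h1, h2, h3⟩)
      · subst h1
        exact ⟨hy, (g1 z).2 h, by rw [g2 z h]; exact Or.inl rfl⟩
      · exact ⟨h1, (g1 z).2 h2, by rw [g2 z h2]; exact Or.inr h3⟩
  · intro h1
    exact he (mem_Fl.1 h1).2.2

open Pool.Agent.N929.EG in
/-- the system of moves -/
def TSh (M m : ℕ) (hm : 720 * M ≤ m) : TS (Finset Edg) Vtx where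
  K n := Fl (bx m).edges.powerset (fun F => (Bf M m F).card = n)
  len F := (Bf M m F).card
  S F := Fl (Yb m) (fun y => Gd M F y ∧ eg F y ∉ F)
  B F := Bf M m F
  ins F y := insert (eg F y) F
  rem F y := F.erase (eg F y)
  s := 1
  cf := FK.cfE
  d := 1
  U _ := Yb m
  hs := le_refl 1
  len_K n F h := (mem_Fl.1 h).2
  ins_K n F y hF hy := by
    obtain ⟨h1, h2⟩ := mem_Fl.1 hF
    obtain ⟨h3, h4, h5⟩ := mem_Fl.1 hy
    obtain ⟨b1, b2⟩ := bf_insert h3 h4 h5
    refine mem_Fl.2 ⟨mem_powerset.2 (insert_subset ?_ (mem_powerset.1 h1)), ?_⟩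
    · obtain ⟨k, hk⟩ := h4
      rw [hk.eg]
      exact (hk.mem hm (mem_Yb.1 h3).2).1
    · rw [b1, card_insert_of_notMem b2, h2]
  ins_B n F y hF hy := by
    obtain ⟨h3, h4, h5⟩ := mem_Fl.1 hy
    obtain ⟨b1, b2⟩ := bf_insert h3 h4 h5
    rw [b1]
    exact mem_insert_self _ _
  rem_ins n F y hF hy := by
    obtain ⟨h3, h4, h5⟩ := mem_Fl.1 hy
    obtain ⟨g1, g2, g3⟩ := gd_insert (mem_Yb.1 h3).2 h4 h5
    rw [g2 y h4, erase_insert h5]
  rem_le n F y hF hy := by
    obtain ⟨h1, h2⟩ := mem_Fl.1 hF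
    rw [← h2]
    exact card_pos.2 ⟨y, hy⟩
  rem_K n F y hF hy := by
    obtain ⟨h1, h2⟩ := mem_Fl.1 hF
    obtain ⟨h3, h4, h5⟩ := mem_Fl.1 hy
    obtain ⟨k1, k2⟩ := gd_erase (mem_Yb.1 h3).2 h4
    obtain ⟨b1, b2⟩ := bf_insert (M := M) (m := m) h3 k1 (by rw [k2]; exact notMem_erase _ _)
    rw [k2, insert_erase h5] at b1
    rw [b1, card_insert_of_notMem b2] at h2
    exact mem_Fl.2 ⟨mem_powerset.2 ((erase_subset _ _).trans (mem_powerset.1 h1)), by omega⟩
  rem_S n F y hF hy := by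
    obtain ⟨h3, h4, h5⟩ := mem_Fl.1 hy
    obtain ⟨k1, k2⟩ := gd_erase (mem_Yb.1 h3).2 h4
    exact mem_Fl.2 ⟨h3, k1, by rw [k2]; exact notMem_erase _ _⟩
  ins_rem n F y hF hy := by
    obtain ⟨h3, h4, h5⟩ := mem_Fl.1 hy
    obtain ⟨k1, k2⟩ := gd_erase (mem_Yb.1 h3).2 h4
    rw [k2, insert_erase h5]
  disj n F y hF hy := by
    obtain ⟨h3, h4, h5⟩ := mem_Fl.1 hy
    intro h
    exact h5 (mem_Fl.1 h).2.2
  cf_symm a b h := Eq.symm h
  ins_S n F y y' hF hy hyy := by
    obtain ⟨h3, h4, h5⟩ := mem_Fl.1 hy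
    obtain ⟨g1, g2, g3⟩ := gd_insert (mem_Yb.1 h3).2 h4 h5
    rw [mem_Fl, mem_Fl]
    constructor
    · rintro ⟨k1, k2, k3⟩
      have k4 := (g1 y').1 k2
      rw [g2 y' k4] at k3
      exact ⟨k1, k4, fun h => k3 (mem_insert_of_mem h)⟩
    · rintro ⟨k1, k2, k3⟩
      refine ⟨k1, (g1 y').2 k2, ?_⟩
      rw [g2 y' k2]
      intro h
      rcases mem_insert.1 h with h | h
      · exact hyy (eg_inj h4 k2 h.symm)
      · exact k3 h
  ins_BB n F y y' hF hy hyy := by
    obtain ⟨h3, h4, h5⟩ := mem_Fl.1 hy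
    obtain ⟨b1, b2⟩ := bf_insert h3 h4 h5
    rw [b1, mem_insert]
    constructor
    · rintro (h | h)
      · exact absurd h.symm hyy
      · exact h
    · exact fun h => Or.inr h
  ins_comm n F y y' hF hy hy' hyy := by
    obtain ⟨h3, h4, h5⟩ := mem_Fl.1 hy
    obtain ⟨h3', h4', h5'⟩ := mem_Fl.1 hy'
    obtain ⟨g1, g2, g3⟩ := gd_insert (mem_Yb.1 h3).2 h4 h5
    obtain ⟨g1', g2', g3'⟩ := gd_insert (mem_Yb.1 h3').2 h4' h5'
    rw [g2 y' h4', g2' y h4]
    exact Finset.insert_comm _ _ _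
  S_U n N F hF hn := by
    refine ⟨fun y hy => (mem_Fl.1 hy).1, fun y hy => (mem_Fl.1 hy).1⟩
  deg N y hy := by
    rw [card_le_one]
    intro a ha b hb
    rw [mem_filter] at ha hb
    exact ha.2.symm.trans hb.2

end

end Pool.Agent.U198.HP
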