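import Pool.Agent.U198.HP.Slot
import Pool.Agent.U198.FK.Mart

/-!
# Tests along the half-plane path
-/

set_option autoImplicit false
set_option linter.unusedVariables false

namespace Pool.Agent.U198.HP

open H974 Finset H342P H984P H984N H984H
open Pool.Agent.U198.FK (Fl mem_Fl Ev ev ev_even ev_end ev_of ev_iff star star_card mem_star
  Expl expl nT nT_end)
open scoped Classical

noncomputable section

/-- the even vertices with an examined edge -/
def Vs (t : ℕ) (F : Finset Edg) : Finset Vtx := (range t).image (fun j => ye F j)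

theorem mem_Vs {t : ℕ} {F : Finset Edg} {y : Vtx} :
    y ∈ Vs t F ↔ ∃ j < t, ye F j = y := by
  unfold Vs
  simp

/-- the information after `t` steps -/
def key (t : ℕ) (F : Finset Edg) : Finset Vtx × Finset Edg :=
  (Vs t F, F.filter (fun e => ev e ∈ Vs t F))

/-- two configurations agree at the even vertices visited by the first -/
def Agr (t : ℕ) (F F' : Finset Edg) : Prop := ∀ e, ev e ∈ Vs t F → (e ∈ F ↔ e ∈ F')

theorem Agr.walk {t : ℕ} {F F' : Finset Edg} (h : Agr t F F') :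
    ∀ j, j ≤ t → pa F j = pa F' j := by
  intro j hj
  exact (pa_agree (k := t) (fun i hi => h _ (mem_Vs.2 ⟨i, hi, rfl⟩)) j hj).symm

theorem Agr.Vs {t : ℕ} {F F' : Finset Edg} (h : Agr t F F') {s : ℕ} (hs : s ≤ t + 1) :
    Vs s F = Vs s F' := by
  unfold HP.Vs
  refine image_congr ?_
  intro j hj
  have hj' : j < s := by simpa using hj
  show ev (be (pa F j)) = ev (be (pa F' j))
  rw [h.walk j (by omega)]

theorem Agr.Vt {t : ℕ} {F F' : Finset Edg} (h : Agr t F F') {s : ℕ} (hs : s ≤ t + 1) :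
    Vt F s = Vt F' s := by
  have h1 := h.Vs hs
  unfold HP.Vs at h1
  unfold HP.Vt
  rw [h1]

theorem key_iff {t : ℕ} {F F' : Finset Edg} : key t F = key t F' ↔ Agr t F F' := by
  constructor
  · intro h e he
    have h1 : Vs t F = Vs t F' := congrArg Prod.fst h
    have h2 : F.filter (fun e => ev e ∈ Vs t F) = F'.filter (fun e => ev e ∈ Vs t F') :=
      congrArg Prod.snd h
    have h3 : e ∈ F.filter (fun e => ev e ∈ Vs t F) ↔
        e ∈ F'.filter (fun e => ev e ∈ Vs t F') := by rw [h2]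
    rw [mem_filter, mem_filter, ← h1] at h3
    exact ⟨fun h => (h3.1 ⟨h, he⟩).1, fun h => (h3.2 ⟨h, he⟩).1⟩
  · intro h
    have h1 := h.Vs (Nat.le_succ t)
    unfold key
    rw [← h1]
    congr 1
    ext e
    rw [mem_filter, mem_filter]
    exact ⟨fun ⟨h2, h3⟩ => ⟨(h e h3).1 h2, h3⟩, fun ⟨h2, h3⟩ => ⟨(h e h3).2 h2, h3⟩⟩

/-- an edge of a tested vertex is examined for the first time, and less than `M` tests took place -/
def tch (M t : ℕ) (F : Finset Edg) : Prop :=
  Ts (ye F t) ∧ ye F t ∉ Vs t F ∧ (Vt F t).card < M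

/-- the other edges of this vertex are closed -/
def suc (M t : ℕ) (F : Finset Edg) : Prop :=
  tch M t F ∧ ∀ e ∈ F, ev e = ye F t → e = be (pa F t)

variable {M : ℕ}

theorem tch_agr {t : ℕ} {F F' : Finset Edg} (h : Agr t F F') (ht : tch M t F) :
    tch M t F' := by
  obtain ⟨h1, h2, h3⟩ := ht
  have hw := h.walk t le_rfl
  have hy : ye F' t = ye F t := by
    unfold ye
    rw [hw]
  refine ⟨?_, ?_, ?_⟩
  · rw [hy]
    exact h1
  · rw [hy, ← h.Vs (Nat.le_succ t)]
    exact h2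
  · rw [← h.Vt (Nat.le_succ t)]
    exact h3

theorem Agr.mono {s t : ℕ} (hst : s ≤ t) {F F' : Finset Edg} (h : Agr t F F') :
    Agr s F F' := by
  intro e he
  obtain ⟨j, hj, hj'⟩ := mem_Vs.1 he
  exact h e (mem_Vs.2 ⟨j, by omega, hj'⟩)

/-- the number of configurations in a set -/
def Sm (E : Finset Edg) (P : Finset Edg → Prop) : ℝ := ∑ F ∈ Fl E.powerset P, (1 : ℝ)

theorem Sm_mono (E : Finset Edg) {P Q : Finset Edg → Prop} (h : ∀ F, P F → Q F) :
    Sm E P ≤ Sm E Q := by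
  refine sum_le_sum_of_subset_of_nonneg ?_ (fun F _ _ => zero_le_one)
  intro F hF
  rw [mem_Fl] at hF ⊢
  exact ⟨hF.1, h F hF.2⟩

theorem Sm_nonneg (E : Finset Edg) (P : Finset Edg → Prop) : 0 ≤ Sm E P :=
  sum_nonneg (fun F _ => zero_le_one)

/-- closing one edge -/
theorem close_one (E : Finset Edg) (P : Finset Edg → Prop) (e : Edg)
    (hP : ∀ F, P F → P (F.erase e)) : Sm E P ≤ 2 * Sm E (fun F => P F ∧ e ∉ F) := by
  have h1 : Sm E P = Sm E (fun F => P F ∧ e ∈ F) + Sm E (fun F => P F ∧ e ∉ F) := by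
    unfold Sm
    rw [← sum_filter_add_sum_filter_not (Fl E.powerset P) (fun F => e ∈ F)
      (fun F => (1 : ℝ))]
    congr 1
    · refine sum_congr ?_ (fun _ _ => rfl)
      ext F
      rw [mem_filter, mem_Fl, mem_Fl, and_assoc]
    · refine sum_congr ?_ (fun _ _ => rfl)
      ext F
      rw [mem_filter, mem_Fl, mem_Fl, and_assoc]
  rw [h1]
  have h3 : Sm E (fun F => P F ∧ e ∈ F) ≤ Sm E (fun F => P F ∧ e ∉ F) := by
    unfold Sm
    have h5 : ∑ F ∈ Fl E.powerset (fun F => P F ∧ e ∈ F), (1 : ℝ) =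
        ∑ F ∈ (Fl E.powerset (fun F => P F ∧ e ∈ F)).image (fun F => F.erase e),
          (1 : ℝ) := by
      rw [sum_image]
      intro F hF F' hF' h
      have h6 : e ∈ F := (mem_Fl.1 hF).2.2
      have h7 : e ∈ F' := (mem_Fl.1 hF').2.2
      have h8 : F.erase e = F'.erase e := h
      rw [← insert_erase h6, h8, insert_erase h7]
    rw [h5]
    refine sum_le_sum_of_subset_of_nonneg ?_ (fun F _ _ => zero_le_one)
    intro F' hF'
    obtain ⟨F, hF, rfl⟩ := mem_image.1 hF'
    obtain ⟨hF1, hF2⟩ := mem_Fl.1 hF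
    exact mem_Fl.2 ⟨mem_powerset.2 ((erase_subset _ _).trans (mem_powerset.1 hF1)),
      hP F hF2.1, notMem_erase e F⟩
  linarith

/-- closing the edges of a set -/
theorem close_all (E T : Finset Edg) (P : Finset Edg → Prop)
    (hP : ∀ F, P F → ∀ e ∈ T, P (F.erase e)) :
    Sm E P ≤ 2 ^ T.card * Sm E (fun F => P F ∧ ∀ e ∈ T, e ∉ F) := by
  induction T using Finset.induction_on with
  | empty =>
    rw [card_empty, pow_zero, one_mul]
    exact Sm_mono E (fun F hF => ⟨hF, fun e he => absurd he (notMem_empty e)⟩)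
  | insert e T he ih =>
    have h1 := ih (fun F hF e he => hP F hF e (mem_insert_of_mem he))
    have h2 := close_one E (fun F => P F ∧ ∀ e ∈ T, e ∉ F) e (by
      rintro F ⟨h3, h4⟩
      exact ⟨hP F h3 e (mem_insert_self e T), fun e' he' h5 => h4 e' he' (mem_of_mem_erase h5)⟩)
    rw [card_insert_of_notMem he, pow_succ]
    have h3 : Sm E (fun F => (P F ∧ ∀ e ∈ T, e ∉ F) ∧ e ∉ F) ≤
        Sm E (fun F => P F ∧ ∀ e' ∈ insert e T, e' ∉ F) := by
      refine Sm_mono E ?_
      rintro F ⟨⟨h4, h5⟩, h6⟩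
      refine ⟨h4, ?_⟩
      rw [forall_mem_insert]
      exact ⟨h6, h5⟩
    have h4 : (0 : ℝ) ≤ 2 ^ T.card := by positivity
    refine h1.trans ?_
    rw [mul_assoc]
    refine mul_le_mul_of_nonneg_left (h2.trans ?_) h4
    exact mul_le_mul_of_nonneg_left h3 (by norm_num)

/-- **the exploration of the path** -/
theorem explHP (M : ℕ) (E : Finset Edg) :
    Expl E.powerset (fun _ => (1 : ℝ)) key (tch M) (suc M) 16 := by
  refine ⟨fun F _ => zero_le_one, ?_, ?_, ?_, ?_, ?_⟩
  · intro t F _ F' _ h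
    rw [key_iff] at h ⊢
    exact h.mono (Nat.le_succ t)
  · intro t F _ F' _ h ht
    exact tch_agr (key_iff.1 h) ht
  · intro t F _ F' _ h hs
    have h1 := key_iff.1 h
    obtain ⟨h2, h3⟩ := hs
    have hw := h1.walk t (Nat.le_succ t)
    have hy : ye F' t = ye F t := by
      unfold ye
      rw [hw]
    refine ⟨tch_agr (h1.mono (Nat.le_succ t)) h2, ?_⟩
    intro e he he'
    rw [hy] at he'
    rw [← hw]
    refine h3 e ((h1 e ?_).2 he) he'
    rw [he']
    exact mem_Vs.2 ⟨t, Nat.lt_succ_self t, rfl⟩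
  · intro t F _ h
    exact h.1
  · intro t F₀ hF₀ ht
    obtain ⟨y, hy⟩ : ∃ y, y = ye F₀ t := ⟨_, rfl⟩
    obtain ⟨e₀, he₀⟩ : ∃ e₀, e₀ = be (pa F₀ t) := ⟨_, rfl⟩
    obtain ⟨T, hT⟩ : ∃ T, T = (FK.star y).filter (fun e => ev e = y ∧ e ≠ e₀) := ⟨_, rfl⟩
    have hTc : T.card ≤ 4 := by
      rw [hT]
      exact (card_filter_le _ _).trans (FK.star_card y)
    have hyV : y ∉ Vs t F₀ := by
      rw [hy]
      exact ht.2.1
    have h1 := close_all E T (fun F => key t F = key t F₀) (by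
      intro F hF e he
      rw [hT, mem_filter] at he
      show key t (F.erase e) = key t F₀
      have h2 : Agr t F₀ F := key_iff.1 (show key t F₀ = key t F from hF.symm)
      refine (key_iff.2 (fun e' he' => ?_)).symm
      rw [h2 e' he', mem_erase]
      constructor
      · intro h3
        refine ⟨?_, h3⟩
        rintro rfl
        rw [he.2.1] at he'
        exact hyV he'
      · exact fun h3 => h3.2)
    have h2 : Sm E (fun F => key t F = key t F₀ ∧ ∀ e ∈ T, e ∉ F) ≤
        Sm E (fun F => key t F = key t F₀ ∧ suc M t F) := by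
      refine Sm_mono E ?_
      rintro F ⟨hF2, hF3⟩
      refine ⟨hF2, ?_⟩
      have h3 : Agr t F₀ F := key_iff.1 hF2.symm
      refine ⟨tch_agr h3 ht, ?_⟩
      intro e he he'
      have hw := h3.walk t le_rfl
      have hy' : ye F t = y := by
        rw [hy]
        unfold ye
        rw [hw]
      rw [← hw, ← he₀]
      by_contra hne
      refine hF3 e ?_ he
      rw [hT, mem_filter]
      rw [hy'] at he'
      exact ⟨mem_star he', he', hne⟩
    have h4 := Sm_nonneg E (fun F => key t F = key t F₀ ∧ suc M t F)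
    have h5 : (2 : ℝ) ^ T.card ≤ 16 :=
      calc (2 : ℝ) ^ T.card ≤ 2 ^ 4 := pow_le_pow_right₀ (by norm_num) hTc
        _ = 16 := by norm_num
    have hpos : (0 : ℝ) ≤ 2 ^ T.card := by positivity
    have h6 := h1.trans (mul_le_mul_of_nonneg_left h2 hpos)
    have h7 := h6.trans (mul_le_mul_of_nonneg_right h5 h4)
    exact h7

theorem suc_le {m : ℕ} (hm : 720 * M ≤ m) (F : Finset Edg) (N : ℕ) :
    nT (suc M) 0 N F ≤ (Gs M m F).card := by
  unfold nT
  refine card_le_card_of_injOn (fun s => ye F s) ?_ ?_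
  · intro s hs
    obtain ⟨h1, h3⟩ := (mem_filter.1 (mem_coe.1 hs)).2
    obtain ⟨h4, h5, h6⟩ := h1
    have h7 : GA M F (ye F s) s := by
      refine ⟨rfl, ?_, h3, h6⟩
      intro j hj h7
      exact h5 (mem_Vs.2 ⟨j, hj, h7⟩)
    exact mem_coe.2 (mem_Fl.2 ⟨(h7.mem hm h4).2, s, h7⟩)
  · intro s hs s' hs' h
    have h1 := ((mem_filter.1 (mem_coe.1 hs)).2).1.2.1
    have h2 := ((mem_filter.1 (mem_coe.1 hs')).2).1.2.1
    have h' : ye F s = ye F s' := h
    rcases lt_trichotomy s s' with h3 | h3 | h3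
    · exact absurd (mem_Vs.2 ⟨s, h3, h'⟩) h2
    · exact h3
    · exact absurd (mem_Vs.2 ⟨s', h3, h'.symm⟩) h1

theorem tch_ge (M : ℕ) (F : Finset Edg) (t : ℕ) :
    min M (Vt F t).card ≤ nT (tch M) 0 t F := by
  induction t with
  | zero =>
    have h : Vt F 0 = ∅ := by
      ext z
      rw [mem_Vt]
      simp
    rw [h, card_empty]
    simp
  | succ t ih =>
    have h1 : nT (tch M) 0 (t + 1) F = (if tch M t F then 1 else 0) + nT (tch M) 0 t F := by
      unfold nT
      have h2 : Ico 0 (t + 1) = insert t (Ico 0 t) := by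
        ext x
        simp only [mem_insert, mem_Ico]
        omega
      rw [h2, filter_insert]
      by_cases hP : tch M t F
      · rw [if_pos hP, if_pos hP, card_insert_of_notMem (by simp)]
        ring
      · rw [if_neg hP, if_neg hP, zero_add]
    have h2 : (Vt F (t + 1)).card ≤ (Vt F t).card + 1 := by
      have h3 : Vt F (t + 1) ⊆ insert (ye F t) (Vt F t) := by
        intro z hz
        obtain ⟨⟨j, hj, hj'⟩, h4⟩ := mem_Vt.1 hz
        rw [mem_insert]
        rcases Nat.lt_or_ge j t with h5 | h5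
        · exact Or.inr (mem_Vt.2 ⟨⟨j, h5, hj'⟩, h4⟩)
        · have h6 : j = t := by omega
          rw [← hj', h6]
          exact Or.inl rfl
      exact (card_le_card h3).trans (card_insert_le _ _)
    rw [h1]
    by_cases hP : tch M t F
    · rw [if_pos hP]
      omega
    · rw [if_neg hP]
      rcases Nat.lt_or_ge (Vt F t).card M with h3 | h3
      · have h4 : Vt F (t + 1) ⊆ Vt F t := by
          intro z hz
          obtain ⟨⟨j, hj, hj'⟩, h5⟩ := mem_Vt.1 hz
          rcases Nat.lt_or_ge j t with h6 | h6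
          · exact mem_Vt.2 ⟨⟨j, h6, hj'⟩, h5⟩
          · have h7 : j = t := by omega
            by_contra h8
            apply hP
            rw [h7] at hj'
            rw [← hj'] at h5 h8
            refine ⟨h5, ?_, h3⟩
            intro h9
            obtain ⟨i, hi, hi'⟩ := mem_Vs.1 h9
            exact h8 (mem_Vt.2 ⟨⟨i, hi, hi'⟩, h5⟩)
        have h5 := card_le_card h4
        omega
      · omega

/-- within `720 M` steps `M` tests take place -/
theorem tch_all (M : ℕ) (F : Finset Edg) : M ≤ nT (tch M) 0 (720 * M) F := by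
  have h1 := tch_ge M F (720 * M)
  have h2 := vt_ge F (120 * M)
  rw [show 6 * (120 * M) = 720 * M by ring] at h2
  omega

/-- **there are many slots** -/
theorem many (r : ℕ) : ∃ C : ℝ, 0 < C ∧ ∀ M m : ℕ, 720 * M ≤ m →
    ∑ F ∈ (bx m).edges.powerset, 1 / Real.sqrt ((Gs M m F).card + 1) ^ r ≤
      C * 2 ^ (bx m).edges.card / Real.sqrt (M + 1) ^ r := by
  -- `lam` with `lam ^ 2 = Λ = 32 / 31`
  obtain ⟨lam, hlam⟩ : ∃ lam : ℝ, lam = Real.sqrt (32 / 31) := ⟨_, rfl⟩
  have hlam1 : 1 < lam := by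
    rw [hlam, Real.lt_sqrt (by norm_num)]
    norm_num
  have hlam0 : 0 < lam := by linarith
  have hlam2 : (32 / 31 : ℝ) = lam ^ 2 := by rw [hlam, Real.sq_sqrt (by norm_num)]
  obtain ⟨a', ha'⟩ := pow_unbounded_of_one_lt (2 : ℝ) hlam1
  obtain ⟨a, ha⟩ : ∃ a, a = a' + 1 := ⟨_, rfl⟩
  have ha2 : 2 ≤ lam ^ a := by
    rw [ha, pow_succ]
    nlinarith [pow_pos hlam0 a']
  have haR : (1 : ℝ) ≤ a := by rw [ha]; push_cast; linarith [Nat.cast_nonneg (α := ℝ) a']
  obtain ⟨C', hC', hexp⟩ : ∃ C : ℝ, 0 < C ∧ ∀ v : ℕ, ((v : ℝ) + 1) ^ r ≤ C * lam ^ v := by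
    have h1 := tendsto_pow_const_div_const_pow_of_one_lt r hlam1
    obtain ⟨B, hB⟩ := h1.bddAbove_range
    have hB' : ∀ n : ℕ, (n : ℝ) ^ r / lam ^ n ≤ B := fun n => hB ⟨n, rfl⟩
    refine ⟨(|B| + 1) * lam ^ 1, by positivity, fun v => ?_⟩
    have h2 := hB' (v + 1)
    rw [div_le_iff₀ (pow_pos hlam0 _)] at h2
    push_cast at h2
    calc ((v : ℝ) + 1) ^ r ≤ B * lam ^ (v + 1) := h2
      _ ≤ (|B| + 1) * lam ^ (v + 1) :=
        mul_le_mul_of_nonneg_right (by linarith [le_abs_self B]) (pow_pos hlam0 _).le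
      _ = _ := by rw [pow_add]; ring
  refine ⟨Real.sqrt a ^ r + C', by positivity, ?_⟩
  intro M m hm
  have h1 := expl (explHP M (bx m).edges) (θ := 1 / 2) (Λ := 32 / 31) (by norm_num) (by norm_num)
    (by norm_num) (by norm_num) (by norm_num) (720 * M)
  simp only [one_mul, sum_const, card_powerset, nsmul_eq_mul, mul_one] at h1
  push_cast at h1
  have hM0 : (0 : ℝ) < (M : ℝ) + 1 := by positivity
  have hsM : 0 < Real.sqrt ((M : ℝ) + 1) ^ r := pow_pos (Real.sqrt_pos.2 hM0) _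
  have hterm : ∀ F ∈ (bx m).edges.powerset, 1 / Real.sqrt ((Gs M m F).card + 1) ^ r ≤
      Real.sqrt a ^ r / Real.sqrt (M + 1) ^ r +
        (C' / Real.sqrt (M + 1) ^ r) *
          ((1 / 2) ^ nT (suc M) 0 (720 * M) F * (32 / 31) ^ nT (tch M) 0 (720 * M) F) := by
    intro F hF
    obtain ⟨S, hS⟩ : ∃ S, S = (Gs M m F).card := ⟨_, rfl⟩
    rw [← hS]
    have hS0 : (0 : ℝ) < (S : ℝ) + 1 := by positivity
    have hsS : 0 < Real.sqrt ((S : ℝ) + 1) ^ r := pow_pos (Real.sqrt_pos.2 hS0) _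
    have hp1 : 0 ≤ (C' / Real.sqrt (M + 1) ^ r) * ((1 / 2 : ℝ) ^ nT (suc M) 0 (720 * M) F *
      (32 / 31) ^ nT (tch M) 0 (720 * M) F) := by positivity
    have hp2 : 0 ≤ Real.sqrt a ^ r / Real.sqrt (M + 1) ^ r := by positivity
    rcases Nat.lt_or_ge M (a * (S + 1)) with hgood | hbad
    · have h2 : (M : ℝ) + 1 ≤ a * ((S : ℝ) + 1) := by exact_mod_cast hgood
      have h4 : Real.sqrt ((M : ℝ) + 1) ≤ Real.sqrt a * Real.sqrt ((S : ℝ) + 1) := by
        rw [← Real.sqrt_mul (by positivity)]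
        exact Real.sqrt_le_sqrt h2
      have h5 : Real.sqrt ((M : ℝ) + 1) ^ r ≤
          Real.sqrt a ^ r * Real.sqrt ((S : ℝ) + 1) ^ r := by
        rw [← mul_pow]
        exact pow_le_pow_left₀ (Real.sqrt_nonneg _) h4 _
      have h8 : 1 / Real.sqrt ((S : ℝ) + 1) ^ r ≤
          Real.sqrt a ^ r / Real.sqrt (M + 1) ^ r := by
        rw [div_le_div_iff₀ hsS hsM, one_mul]
        exact h5
      linarith
    · have hMS : a * S ≤ M := by
        rw [Nat.mul_add] at hbad
        omega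
      have h2 : 1 / Real.sqrt ((S : ℝ) + 1) ^ r ≤ 1 := by
        rw [div_le_one hsS]
        refine one_le_pow₀ ?_
        rw [Real.one_le_sqrt]
        linarith [Nat.cast_nonneg (α := ℝ) S]
      have h3 : nT (suc M) 0 (720 * M) F ≤ S := by rw [hS]; exact suc_le hm F _
      have h4 : M ≤ nT (tch M) 0 (720 * M) F := tch_all M F
      have h5 : (1 / 2 : ℝ) ^ S ≤ (1 / 2 : ℝ) ^ nT (suc M) 0 (720 * M) F :=
        pow_le_pow_of_le_one (by norm_num) (by norm_num) h3
      have h6 : (32 / 31 : ℝ) ^ M ≤ (32 / 31 : ℝ) ^ nT (tch M) 0 (720 * M) F :=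
        pow_le_pow_right₀ (by norm_num) h4
      have h7 : (1 / 2 : ℝ) ^ S * (32 / 31) ^ M ≤
          (1 / 2 : ℝ) ^ nT (suc M) 0 (720 * M) F * (32 / 31) ^ nT (tch M) 0 (720 * M) F :=
        mul_le_mul h5 h6 (by positivity) (by positivity)
      have h8 : (2 : ℝ) ^ S ≤ lam ^ M := by
        calc (2 : ℝ) ^ S ≤ (lam ^ a) ^ S := pow_le_pow_left₀ (by norm_num) ha2 _
          _ = lam ^ (a * S) := by rw [pow_mul]
          _ ≤ lam ^ M := pow_le_pow_right₀ hlam1.le hMS
      have h9 : lam ^ M ≤ (1 / 2 : ℝ) ^ S * (32 / 31) ^ M := by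
        rw [hlam2, ← pow_mul, mul_comm 2 M, pow_mul, sq, one_div, inv_pow,
          inv_mul_eq_div, le_div_iff₀ (by positivity), mul_comm]
        exact mul_le_mul_of_nonneg_right h8 (by positivity)
      have h10 : Real.sqrt ((M : ℝ) + 1) ^ r ≤ C' * lam ^ M := by
        refine le_trans ?_ (hexp M)
        refine pow_le_pow_left₀ (Real.sqrt_nonneg _) ?_ _
        rw [Real.sqrt_le_left (by positivity)]
        nlinarith [Nat.cast_nonneg (α := ℝ) M]
      have h11 : 1 ≤ (C' / Real.sqrt (M + 1) ^ r) *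
          ((1 / 2 : ℝ) ^ nT (suc M) 0 (720 * M) F * (32 / 31) ^ nT (tch M) 0 (720 * M) F) := by
        rw [div_mul_eq_mul_div, le_div_iff₀ hsM, one_mul]
        exact h10.trans (mul_le_mul_of_nonneg_left (h9.trans h7) hC'.le)
      linarith
  calc ∑ F ∈ (bx m).edges.powerset, 1 / Real.sqrt ((Gs M m F).card + 1) ^ r ≤
      ∑ F ∈ (bx m).edges.powerset, (Real.sqrt a ^ r / Real.sqrt (M + 1) ^ r +
        (C' / Real.sqrt (M + 1) ^ r) *
          ((1 / 2) ^ nT (suc M) 0 (720 * M) F * (32 / 31) ^ nT (tch M) 0 (720 * M) F)) :=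
        sum_le_sum hterm
    _ = 2 ^ (bx m).edges.card * (Real.sqrt a ^ r / Real.sqrt (M + 1) ^ r) +
        (C' / Real.sqrt (M + 1) ^ r) * ∑ F ∈ (bx m).edges.powerset,
          ((1 / 2) ^ nT (suc M) 0 (720 * M) F * (32 / 31) ^ nT (tch M) 0 (720 * M) F) := by
        rw [sum_add_distrib, ← mul_sum, sum_const, card_powerset, nsmul_eq_mul]
        push_cast
        rfl
    _ ≤ 2 ^ (bx m).edges.card * (Real.sqrt a ^ r / Real.sqrt (M + 1) ^ r) +
        (C' / Real.sqrt (M + 1) ^ r) * 2 ^ (bx m).edges.card := by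
        have : 0 ≤ C' / Real.sqrt ((M : ℝ) + 1) ^ r := by positivity
        have := mul_le_mul_of_nonneg_left h1 this
        linarith
    _ = _ := by ring

end

end Pool.Agent.U198.HP
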